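import Pool.Agent.Helper88_SA.StmtP

/-! Module CLOSE of squad SA (MP_de6679_lc): the step k of the main induction. -/

namespace SA.H33

open Finset

lemma Dt_out {c : ℤ} (h : c < -47 ∨ 24 ≤ c) : Dt c = 0 := by
  unfold Dt; rw [if_neg]; omega

lemma dmt_out {c : ℤ} (h : c < -47 ∨ 24 ≤ c) : dmt c = 0 := by
  unfold dmt; rw [if_neg]; omega

lemma Dn_nonneg (T : ℝ) (n : ℕ) : 0 ≤ Dn T n := Finset.sum_nonneg (fun _ _ => le_max_right _ _)

/-- all earlier states are valid -/
lemma val_lt {T x0 z : ℝ} {th : ℂ} (ctx : Ctx T x0 z th) {k : ℕ} (hh : HH T x0 z th k) (m : ℕ)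
    (hm : m < 1525 + k) : Valid T m := by
  rcases lt_or_ge m 1525 with h | h
  · exact ctx.sim.valid m h
  · obtain ⟨i, rfl⟩ := Nat.exists_eq_add_of_le h
    exact (hh i (by omega)).val

/-- going back t steps so that the window is avoided -/
lemma out_of {T x0 z : ℝ} {th : ℂ} (ctx : Ctx T x0 z th) (hDrift : DriftStmt) (hCycb : CycbStmt)
    {k : ℕ} (hh : HH T x0 z th k) {t : ℕ} (ht : t ≤ k) (ht' : t ≤ 20)
    (hc : (24 ≤ cell T x0 th k ∧ t = 1) ∨ (cell T x0 th k < -56 ∧ t = 1) ∨
      (88 ≤ cell T x0 th k + 8 * t ∧ cell T x0 th k + 8 * t < 96)) :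
    cell T x0 th (k - t) < -47 ∨ 24 ≤ cell T x0 th (k - t) := by
  obtain ⟨h1, h2, -⟩ := hDrift T x0 z th ctx k hh (k - t) k (by omega) le_rfl
  obtain ⟨u1, u2, u3, u4, -⟩ := hCycb T x0 z th ctx k
  obtain ⟨v1, v2, v3, v4, -⟩ := hCycb T x0 z th ctx (k - t)
  have hper := abs_le.1 ctx.nr.per_enc
  have hcast : ((k : ℝ) - ((k - t : ℕ) : ℝ)) = t := by
    rw [Nat.cast_sub ht]; ring
  rw [hcast] at h2
  have h2' := abs_le.1 h2
  set D : ℤ := cyc T x0 th k - cyc T x0 th (k - t) with hD
  have hD0 : 0 ≤ D := by omega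
  have hDr : (D : ℝ) = (cyc T x0 th k : ℝ) - cyc T x0 th (k - t) := by
    rw [hD]; push_cast; ring
  have hppk : pp T x0 th k = ph T x0 th k + cyc T x0 th k * per th := rfl
  have hppi : pp T x0 th (k - t) = ph T x0 th (k - t) + cyc T x0 th (k - t) * per th := rfl
  have hrel : (D : ℝ) * per th = pp T x0 th k - pp T x0 th (k - t)
      + (ph T x0 th (k - t) - ph T x0 th k) := by
    rw [hDr, hppk, hppi]; ring
  have htr : (t : ℝ) ≤ 20 := by exact_mod_cast ht'
  have hD0r : (0 : ℝ) ≤ D := by exact_mod_cast hD0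
  have hDle : D ≤ 1 := by
    by_contra hcon
    have h3 : 2 ≤ D := by omega
    have h3r : (2 : ℝ) ≤ D := by exact_mod_cast h3
    have h4 : (D : ℝ) * per th ≤ per th + t + 0.027 * (D + 1) := by
      rw [hrel]; rw [hDr]; linarith [h2'.2]
    nlinarith [h4, hper.1, hper.2, mul_le_mul_of_nonneg_right h3r (show (0 : ℝ) ≤ per th - 0.027 by linarith [hper.1])]
  rcases (show D = 0 ∨ D = 1 by omega) with h0 | h0
  · have h0r : (D : ℝ) = 0 := by exact_mod_cast h0
    rw [h0r, zero_mul] at hrel
    have h6 : (cyc T x0 th k : ℝ) - cyc T x0 th (k - t) = 0 := by rw [← hDr, h0r]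
    rw [h6] at h2'
    rcases hc with ⟨hc, h7⟩ | ⟨hc, h7⟩ | ⟨hc, hc'⟩
    · right
      have h8 : (24 : ℝ) ≤ cell T x0 th k := by exact_mod_cast hc
      have h9 : (t : ℝ) = 1 := by exact_mod_cast h7
      have h10 : (24 : ℝ) < (cell T x0 th (k - t) : ℝ) + 1 := by
        rw [h9] at h2'; linarith [h2'.1]
      have : (24 : ℤ) < cell T x0 th (k - t) + 1 := by exact_mod_cast h10
      omega
    · left
      have h8 : (cell T x0 th k : ℝ) ≤ -57 := by
        have : cell T x0 th k ≤ -57 := by omega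
        exact_mod_cast this
      have h9 : (t : ℝ) = 1 := by exact_mod_cast h7
      have h10 : (cell T x0 th (k - t) : ℝ) < -47 := by
        rw [h9] at h2'; linarith [h2'.2]
      exact_mod_cast h10
    · right
      have h8 : (88 : ℝ) ≤ (cell T x0 th k : ℝ) + 8 * t := by exact_mod_cast hc
      have h10 : (24 : ℝ) < (cell T x0 th (k - t) : ℝ) + 1 := by
        linarith [h2'.1]
      have : (24 : ℤ) < cell T x0 th (k - t) + 1 := by exact_mod_cast h10
      omega
  · left
    have h0r : (D : ℝ) = 1 := by exact_mod_cast h0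
    rw [h0r, one_mul] at hrel
    have h6 : (cyc T x0 th k : ℝ) - cyc T x0 th (k - t) = 1 := by rw [← hDr, h0r]
    rw [h6] at h2'
    have h11 : pp T x0 th k + t ≤ 12 := by
      rcases hc with ⟨hc, h7⟩ | ⟨hc, h7⟩ | ⟨hc, hc'⟩
      · have h9 : (t : ℝ) = 1 := by exact_mod_cast h7
        linarith
      · have h9 : (t : ℝ) = 1 := by exact_mod_cast h7
        linarith
      · have h8 : (cell T x0 th k : ℝ) + 8 * t ≤ 95 := by
          have : cell T x0 th k + 8 * t ≤ 95 := by omega
          exact_mod_cast this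
        linarith
    have h10 : (cell T x0 th (k - t) : ℝ) < -47 := by
      linarith [h2'.2, hper.1]
    exact_mod_cast h10

lemma le_cdiv (a b : ℤ) (hb : 0 < b) : (a : ℝ) / b ≤ (cdiv a b : ℤ) := by
  have h1 : a ≤ cdiv a b * b := by
    have := Int.ediv_mul_le (-a) (ne_of_gt hb)
    unfold cdiv
    linarith
  have hbr : (0 : ℝ) < b := by exact_mod_cast hb
  rw [div_le_iff₀ hbr]
  exact_mod_cast h1

lemma ediv_le (a b : ℤ) (hb : 0 < b) : ((a / b : ℤ) : ℝ) ≤ (a : ℝ) / b := by
  have h1 : (a / b) * b ≤ a := Int.ediv_mul_le a (ne_of_gt hb)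
  have hbr : (0 : ℝ) < b := by exact_mod_cast hb
  rw [le_div_iff₀ hbr]
  exact_mod_cast h1

/-- the term t of aN -/
def aT (c : ℤ) (t : ℕ) : ℤ :=
  if 0 ≤ Wt (c + 8 * t) then - (Wt (c + 8 * t) * X0lo t / 10 ^ 10)
      else cdiv ((-Wt (c + 8 * t)) * X0hi t * 10001) (10 ^ 14)

lemma aN_eq (c : ℤ) (i : ℕ) : aN c i = ∑ t ∈ range (i + 1), aT c t := by
  induction i with
  | zero =>
    rw [Finset.sum_range_one]
    simp [aN, aT]
  | succ i ih =>
    rw [Finset.sum_range_succ, ← ih]
    simp only [aN, aT]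
    push_cast
    rfl

/-- one term -/
lemma term_le {T x0 z : ℝ} {th : ℂ} (ctx : Ctx T x0 z th) (b : NumA) (hEW : EWStmt)
    (hProd : ProdStmt) (hBack : BackStmt) {k : ℕ} (hh : HH T x0 z th k) (pre : Pre T x0 z th k)
    {t : ℕ} (ht : t ≤ k) (ht' : t < 26) (hlo : -304 ≤ cell T x0 th k) (hc : cell T x0 th k + 8 * t < 88) :
    - Wn T (1525 + (k - t)) ≤ Ck T x0 k * ((aT (cell T x0 th k) t : ℤ) / 10 ^ 10) := by
  have h1 := hEW T x0 z th ctx k hh pre t ht hc
  obtain ⟨p1, p2, p3, -⟩ := hProd T x0 z th ctx k hh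
  obtain ⟨x1, x2⟩ := ctx.nr.x0_pow t ht'
  have hC : 0 < Ck T x0 k := p1 (1525 + k) (by omega) le_rfl
  unfold aT
  set w : ℤ := Wt (cell T x0 th k + 8 * t) with hw
  by_cases h0 : 0 ≤ w
  · rw [if_pos h0]
    have h2 := p2 (1525 + (k - t)) (1525 + k) (by omega) (by omega) le_rfl
    have h3 : 1525 + k - (1525 + (k - t)) = t := by omega
    rw [h3] at h2
    have h2' : Ck T x0 k * x0 ^ t ≤ Ck T x0 (k - t) := h2
    have hwr : (0 : ℝ) ≤ (w : ℝ) := by exact_mod_cast h0
    have h4 := ediv_le (w * X0lo t) (10 ^ 10) (by norm_num)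
    rw [show (((10 ^ 10 : ℤ)) : ℝ) = 10 ^ 10 by norm_num, Int.cast_mul] at h4
    rw [Int.cast_neg]
    have h5 : Ck T x0 k * ((X0lo t : ℝ) / 10 ^ 10) * ((w : ℝ) / 10 ^ 10)
        ≤ Ck T x0 (k - t) * ((w : ℝ) / 10 ^ 10) := by
      apply mul_le_mul_of_nonneg_right _ (by positivity)
      exact le_trans (mul_le_mul_of_nonneg_left x1 hC.le) h2'
    have h6 : Ck T x0 k * ((((w * X0lo t / 10 ^ 10 : ℤ) : ℝ)) / 10 ^ 10)
        ≤ Ck T x0 k * ((X0lo t : ℝ) / 10 ^ 10) * ((w : ℝ) / 10 ^ 10) := by
      rw [mul_assoc]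
      apply mul_le_mul_of_nonneg_left _ hC.le
      calc (((w * X0lo t / 10 ^ 10 : ℤ) : ℝ)) / 10 ^ 10
          ≤ ((w : ℝ) * X0lo t / 10 ^ 10) / 10 ^ 10 := by
            apply div_le_div_of_nonneg_right _ (by norm_num)
            exact h4
        _ = (X0lo t : ℝ) / 10 ^ 10 * ((w : ℝ) / 10 ^ 10) := by ring
    have h7 : Ck T x0 k * (-((w * X0lo t / 10 ^ 10 : ℤ) : ℝ) / 10 ^ 10)
        = - (Ck T x0 k * ((((w * X0lo t / 10 ^ 10 : ℤ) : ℝ)) / 10 ^ 10)) := by ring
    rw [h7]
    linarith
  · rw [if_neg h0]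
    have hneg : (w : ℝ) < 0 := by
      have : w < 0 := by omega
      exact_mod_cast this
    have hin : ¬ (cell T x0 th k + 8 * t < -24 ∨ 24 ≤ cell T x0 th k + 8 * t) := by
      intro hcon
      exact h0 (b.w.wpos _ (by omega) hc hcon).le
    have h2 := (hBack T x0 z th ctx k hh t ht hc).2.2 (by omega)
    have h3 := p3 (k - t) k (by omega) le_rfl (by omega)
    rw [h2] at h3
    have h4 : k - (k - t) = t := by omega
    rw [h4] at h3
    have h5 := le_cdiv ((-w) * X0hi t * 10001) (10 ^ 14) (by norm_num)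
    have h6 : Ck T x0 (k - t) ≤ Ck T x0 k * (((X0hi t : ℝ) / 10 ^ 10) * (10001 / 10 ^ 4)) := by
      refine le_trans h3 ?_
      rw [mul_assoc]
      apply mul_le_mul_of_nonneg_left _ hC.le
      have h8 : (1 : ℝ) + ((cyc T x0 th k : ℝ) - cyc T x0 th k + 1) / 10 ^ 4 = 10001 / 10 ^ 4 := by
        rw [sub_self]; norm_num
      rw [h8]
      exact mul_le_mul_of_nonneg_right x2 (by norm_num)
    have h7 : Ck T x0 (k - t) * ((-(w : ℝ)) / 10 ^ 10)
        ≤ Ck T x0 k * (((X0hi t : ℝ) / 10 ^ 10) * (10001 / 10 ^ 4)) * ((-(w : ℝ)) / 10 ^ 10) :=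
      mul_le_mul_of_nonneg_right h6 (div_nonneg (by linarith) (by norm_num))
    have h9 : Ck T x0 k * (((X0hi t : ℝ) / 10 ^ 10) * (10001 / 10 ^ 4)) * ((-(w : ℝ)) / 10 ^ 10)
        ≤ Ck T x0 k * ((cdiv ((-w) * X0hi t * 10001) (10 ^ 14) : ℤ) / 10 ^ 10) := by
      rw [mul_assoc]
      apply mul_le_mul_of_nonneg_left _ hC.le
      calc ((X0hi t : ℝ) / 10 ^ 10) * (10001 / 10 ^ 4) * ((-(w : ℝ)) / 10 ^ 10)
          = (((((-w) * X0hi t * 10001 : ℤ) : ℝ)) / ((10 ^ 14 : ℤ) : ℝ)) / 10 ^ 10 := by
            push_cast; ring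
        _ ≤ _ := div_le_div_of_nonneg_right h5 (by norm_num)
    have h10 : Ck T x0 (k - t) * ((-(w : ℝ)) / 10 ^ 10)
        = - (Ck T x0 (k - t) * ((w : ℝ) / 10 ^ 10)) := by ring
    linarith

/-- telescoping -/
lemma tele (T : ℝ) (k : ℕ) : ∀ i, i + 1 ≤ k →
    - ∑ t ∈ range (i + 1), Wn T (1525 + (k - t))
      = (cst T (1525 + (k - (i + 1))) - cst T (1525 + k)) / 56 := by
  intro i
  induction i with
  | zero =>
    intro h
    rw [Finset.sum_range_one]
    unfold Wn
    have : 1525 + (k - 0) - 1 = 1525 + (k - (0 + 1)) := by omega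
    rw [this]
    simp only [Nat.sub_zero]
    ring
  | succ i ih =>
    intro h
    rw [Finset.sum_range_succ, neg_add, ih (by omega)]
    unfold Wn
    have : 1525 + (k - (i + 1)) - 1 = 1525 + (k - (i + 1 + 1)) := by omega
    rw [this]
    ring

lemma list_sum_range (f : ℕ → ℤ) (I : ℕ) : ((List.range I).map f).sum = ∑ i ∈ range I, f i := by
  induction I with
  | zero => simp
  | succ I ih =>
    rw [List.range_succ, List.map_append, List.sum_append, ih, Finset.sum_range_succ]
    simp

lemma list_filter_range (f : ℕ → ℤ) (p : ℤ → Bool) (I : ℕ) :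
    (((List.range I).map f).filter p).length = ((range I).filter (fun i => p (f i) = true)).card := by
  induction I with
  | zero => simp
  | succ I ih =>
    rw [List.range_succ, List.map_append, List.filter_append, List.length_append, ih,
      Finset.range_add_one, Finset.filter_insert]
    by_cases h : p (f I) = true
    · rw [if_pos h, Finset.card_insert_of_notMem (by simp)]
      simp [h]
    · rw [if_neg h]
      simp [h]

theorem close (a : AlgA) (b : NumA) (hEW : EWStmt) (hProd : ProdStmt) (hBack : BackStmt)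
    (hDrift : DriftStmt) (hCycb : CycbStmt) (hNop : NopStmt) : CloseStmt := by
  intro T x0 z th ctx k hk hh pre
  obtain ⟨-, -, -, -, clo, chi, -⟩ := hCycb T x0 z th ctx k
  have hval := val_lt ctx hh
  have hC : 0 < Cn T x0 (1525 + k) := pre.Cpos
  by_cases hcase : cell T x0 th k < -56 ∨ 24 ≤ cell T x0 th k
  · -- outside
    have hout := out_of ctx hDrift hCycb hh (t := 1) (by omega) (by omega) (by omega)
    have hkap0 : kap T (1525 + (k - 1)) = 0 := by
      have := (hh (k - 1) (by omega)).kle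
      rw [dmt_out hout] at this
      omega
    have hW := hEW T x0 z th ctx k hh pre 0 (by omega) (by simpa using chi)
    have hWt := b.w.wpos (cell T x0 th k) clo chi (by omega)
    have hWpos : 0 < Wn T (1525 + k) := by
      refine lt_of_lt_of_le ?_ hW
      have : (0 : ℝ) < (Wt (cell T x0 th k + 8 * (0 : ℕ)) : ℝ) := by
        simpa using hWt
      simp only [Nat.sub_zero]
      exact mul_pos hC (div_pos this (by norm_num))
    have h1 : 1525 + k - 1 = 1525 + (k - 1) := by omega
    obtain ⟨q1, q2, q3, -⟩ := hNop T (1525 + k) (by omega) hval (by rw [h1]; exact hkap0) hWpos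
    refine ⟨q1, ?_, ?_⟩
    · rw [q3]; positivity
    · rw [q2]; exact Nat.zero_le _
  · -- the window
    have hc1 : -56 ≤ cell T x0 th k := by omega
    have hc2 : cell T x0 th k < 24 := by omega
    set c : ℤ := cell T x0 th k with hcdef
    have he := b.e2 c hc1 hc2
    unfold e2ok at he
    simp only [Bool.and_eq_true, decide_eq_true_eq] at he
    obtain ⟨⟨⟨⟨e1, e2⟩, e3⟩, e4⟩, -⟩ := he
    set I : ℕ := nI c with hI
    have hIval : (I : ℤ) = cdiv (88 - c) 8 := by
      rw [hI]; unfold nI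
      apply Int.toNat_of_nonneg
      unfold cdiv; omega
    have hI1 : 88 ≤ c + 8 * (I : ℤ) ∧ c + 8 * (I : ℤ) < 96 := by
      rw [hIval]; unfold cdiv; omega
    have hI9 : 9 ≤ I := by omega
    obtain ⟨p1, p2, p3, -⟩ := hProd T x0 z th ctx k hh
    -- the state n' = n - I
    have hout := out_of ctx hDrift hCycb hh (t := I) (by omega) (by omega)
      (by right; right; exact hI1)
    have hPP' := hh (k - I) (by omega)
    have hkap0 : kap T (1525 + (k - I)) = 0 := by
      have := hPP'.kle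
      rw [dmt_out hout] at this
      omega
    have hq' := a.qzero T (1525 + (k - I)) (fun m hm => hval m (by omega))
    have hBle : ∀ m, m < 1525 + (k - I) → Bn T m ≤ Bn T (1525 + (k - I)) := hq'.2.2.2.1 hkap0
    have hB0 : 0 ≤ Bn T (1525 + (k - I)) :=
      le_trans ((a.sort T (1525 + (k - I))).2.1 55) hPP'.val
    -- y and x
    set y : ℝ := Cn T x0 (1525 + k) * ((Dt c : ℝ) / 10 ^ 6) with hy
    set x : ℝ := (cst T (1525 + k) - y) / 56 with hx
    have hy0 : 0 ≤ y := by rw [hy]; positivity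
    -- the difference B_m - x
    have hdiff : ∀ i, i < I → Bn T (1525 + (k - (i + 1))) - x
        ≤ Cn T x0 (1525 + k) / (56 * 10 ^ 10) * ((56 * aN c i + (Dt c : ℤ) * 10 ^ 4 : ℤ) : ℝ) := by
      intro i hi
      have hik : i + 1 ≤ k := by omega
      have h1 := tele T k i hik
      have h2 : - ∑ t ∈ range (i + 1), Wn T (1525 + (k - t))
          ≤ Cn T x0 (1525 + k) * ((aN c i : ℝ) / 10 ^ 10) := by
        rw [aN_eq, ← Finset.sum_neg_distrib]
        push_cast
        rw [Finset.sum_div, Finset.mul_sum]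
        apply Finset.sum_le_sum
        intro t ht
        rw [Finset.mem_range] at ht
        exact term_le ctx b hEW hProd hBack hh pre (by omega) (by omega) clo (by omega)
      have h3 := (a.bar T (1525 + (k - (i + 1))) (hval _ (by omega))).2.2
      have h4 := Dn_nonneg T (1525 + (k - (i + 1)))
      have h5 : Bn T (1525 + (k - (i + 1))) - x
          = - ∑ t ∈ range (i + 1), Wn T (1525 + (k - t))
            + (y - Dn T (1525 + (k - (i + 1)))) / 56 := by
        rw [h1, hx]; linarith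
      rw [h5]
      have h6 : Cn T x0 (1525 + k) / (56 * 10 ^ 10) * ((56 * aN c i + (Dt c : ℤ) * 10 ^ 4 : ℤ) : ℝ)
          = Cn T x0 (1525 + k) * ((aN c i : ℝ) / 10 ^ 10) + y / 56 := by
        rw [hy]; push_cast; ring
      rw [h6]
      linarith
    have hCdiv : 0 ≤ Cn T x0 (1525 + k) / (56 * 10 ^ 10) := by positivity
    -- B_{n'} ≤ x
    have hBx : Bn T (1525 + (k - I)) ≤ x := by
      have h1 := hdiff (I - 1) (by omega)
      have h2 : I - 1 + 1 = I := by omega
      rw [h2] at h1
      have h3 : ((56 * aN c (I - 1) + (Dt c : ℤ) * 10 ^ 4 : ℤ) : ℝ) ≤ 0 := by exact_mod_cast e4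
      have h4 := mul_nonpos_of_nonneg_of_nonpos hCdiv h3
      linarith
    -- Q_55 ≤ x
    have hq := a.qzero T (1525 + k) hval
    have hQ : (gr T (1525 + k)).Q 55 ≤ x :=
      le_trans (hq.2.2.1 (1525 + (k - I)) (by omega) (by omega) hBle hB0) hBx
    obtain ⟨t1, t2⟩ := a.top T (1525 + k) hval x hQ
    have hnI : 1525 + k = (1525 + (k - I)) + I := by omega
    have hlow : ∀ m, m < 1525 + (k - I) → Bn T m ≤ x := fun m hm => le_trans (hBle m hm) hBx
    have hsum : ∑ m ∈ range (1525 + k), max (Bn T m - x) 0 ≤ y := by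
      have h1 : ∑ m ∈ range (1525 + k), max (Bn T m - x) 0
          = ∑ m ∈ range (1525 + (k - I)), max (Bn T m - x) 0
            + ∑ i ∈ range I, max (Bn T (1525 + (k - I) + i) - x) 0 := by
        conv_lhs => rw [hnI]
        rw [Finset.sum_range_add]
      have h2 : ∑ m ∈ range (1525 + (k - I)), max (Bn T m - x) 0 = 0 := by
        apply Finset.sum_eq_zero
        intro m hm
        rw [Finset.mem_range] at hm
        exact max_eq_right (by linarith [hlow m hm])
      rw [h1, h2, zero_add, ← Finset.sum_range_reflect]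
      have h3 : ∑ i ∈ range I, max (Bn T (1525 + (k - I) + (I - 1 - i)) - x) 0
          ≤ ∑ i ∈ range I, Cn T x0 (1525 + k) / (56 * 10 ^ 10)
            * ((max 0 (56 * aN c i + (Dt c : ℤ) * 10 ^ 4) : ℤ) : ℝ) := by
        apply Finset.sum_le_sum
        intro i hi
        rw [Finset.mem_range] at hi
        have h4 : 1525 + (k - I) + (I - 1 - i) = 1525 + (k - (i + 1)) := by omega
        rw [h4]
        apply max_le
        · refine le_trans (hdiff i hi) ?_
          apply mul_le_mul_of_nonneg_left _ hCdiv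
          have : 56 * aN c i + (Dt c : ℤ) * 10 ^ 4 ≤ max 0 (56 * aN c i + (Dt c : ℤ) * 10 ^ 4) :=
            le_max_right _ _
          exact_mod_cast this
        · apply mul_nonneg hCdiv
          have : (0 : ℤ) ≤ max 0 (56 * aN c i + (Dt c : ℤ) * 10 ^ 4) := le_max_left _ _
          exact_mod_cast this
      refine le_trans h3 ?_
      rw [← Finset.mul_sum]
      have h5 : ∑ i ∈ range I, max 0 (56 * aN c i + (Dt c : ℤ) * 10 ^ 4)
          ≤ 56 * (Dt c : ℤ) * 10 ^ 4 := by
        have := e2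
        rw [List.map_map, list_sum_range] at this
        exact this
      have h6 : ∑ i ∈ range I, ((max 0 (56 * aN c i + (Dt c : ℤ) * 10 ^ 4) : ℤ) : ℝ)
          ≤ 56 * (Dt c : ℝ) * 10 ^ 4 := by exact_mod_cast h5
      refine le_trans (mul_le_mul_of_nonneg_left h6 hCdiv) ?_
      rw [hy]
      apply le_of_eq
      ring
    have hxB : x ≤ Bn T (1525 + k) := by
      apply a.barge T (1525 + k) x
      rw [t1]
      have : 56 * x + y = cst T (1525 + k) := by rw [hx]; ring
      linarith
    have hV : Valid T (1525 + k) := le_trans hQ hxB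
    refine ⟨hV, ?_, ?_⟩
    · have h1 := (a.bar T (1525 + k) hV).2.2
      have : 56 * x + y = cst T (1525 + k) := by rw [hx]; ring
      linarith
    · have h1 : kap T (1525 + k) ≤ ((range 56).filter (fun j => x < (gr T (1525 + k)).Q j)).card := by
        unfold kap
        apply Finset.card_le_card
        intro j hj
        rw [Finset.mem_filter] at hj ⊢
        exact ⟨hj.1, lt_of_le_of_lt hxB hj.2⟩
      rw [t2] at h1
      have h2 : ((range (1525 + k)).filter (fun m => x < Bn T m)).card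
          ≤ ((range I).filter (fun i => (decide (0 < 56 * aN c i + (Dt c : ℤ) * 10 ^ 4)) = true)).card := by
        apply Finset.card_le_card_of_injOn (fun m => 1525 + k - 1 - m)
        · intro m hm
          rw [Finset.mem_coe, Finset.mem_filter, Finset.mem_range] at hm
          rw [Finset.mem_coe, Finset.mem_filter, Finset.mem_range]
          obtain ⟨hm1, hm2⟩ := hm
          have hm3 : 1525 + (k - I) ≤ m := by
            by_contra hcon
            have := hlow m (by omega)
            linarith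
          refine ⟨show 1525 + k - 1 - m < I by omega, ?_⟩
          rw [decide_eq_true_eq]
          show 0 < 56 * aN c (1525 + k - 1 - m) + (Dt c : ℤ) * 10 ^ 4
          have h3 := hdiff (1525 + k - 1 - m) (by clear e2 e3 e4; omega)
          have h4 : 1525 + (k - (1525 + k - 1 - m + 1)) = m := by omega
          rw [h4] at h3
          by_contra hcon
          have h5 : ((56 * aN c (1525 + k - 1 - m) + (Dt c : ℤ) * 10 ^ 4 : ℤ) : ℝ) ≤ 0 := by
            exact_mod_cast not_lt.1 hcon
          have h6 := mul_nonpos_of_nonneg_of_nonpos hCdiv h5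
          linarith
        · intro m hm m' hm' heq
          rw [Finset.mem_coe, Finset.mem_filter, Finset.mem_range] at hm hm'
          simp only at heq
          omega
      have h3 : ((range I).filter (fun i => (decide (0 < 56 * aN c i + (Dt c : ℤ) * 10 ^ 4)) = true)).card
          ≤ dmt c := by
        have := e3
        rw [list_filter_range] at this
        exact this
      omega

end SA.H33
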