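import Pool.Agent.Helper33_SA.LoA

/-! Module LO of squad SA, part 2: lower bound for the pauses of one cycle. -/

namespace SA.H33

open Finset

lemma selok_of (b : NumA) {cb : ℕ} (h1 : 79 ≤ cb) (h2 : cb ≤ 87) : selok cb := by
  have h := b.lo.loU cb h1 h2
  unfold loUok at h
  rw [Bool.and_eq_true] at h
  have h3 := List.all_eq_true.1 h.2
  intro e he
  exact of_decide_eq_true (h3 e he)

lemma nodup_of {cb : ℕ} (h1 : 79 ≤ cb) (h2 : cb ≤ 87) : ((selL cb).map (fun e => e.1)).Nodup := by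
  interval_cases cb <;> decide

lemma list_sum_range_le (L : List ℕ) (hL : L.Nodup) (N : ℕ) (hN : ∀ x ∈ L, x < N) (f : ℕ → ℝ)
    (hf : ∀ x, x < N → 0 ≤ f x) : (L.map f).sum ≤ ∑ s ∈ range N, f s := by
  rw [← List.sum_toFinset f hL]
  apply Finset.sum_le_sum_of_subset_of_nonneg
  · intro x hx
    rw [List.mem_toFinset] at hx
    exact Finset.mem_range.2 (hN x hx)
  · intro x hx _
    exact hf x (Finset.mem_range.1 hx)

lemma aXp_zero (cb s : ℕ) : aXp cb s 0 = 0 := by
  unfold aXp cdiv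
  simp

lemma bS_cast (cb s : ℕ) :
    (bS cb s : ℝ) = ((selL cb).map (fun e => ∑ jj ∈ range e.2.2.1,
      ((if s + 1 + (e.2.1 + jj) = e.1 then
        ((cdiv ((e.2.2.2 : ℤ) * X0hi (e.2.1 + jj + 1) * 10001) (10 ^ 4) : ℤ) : ℝ) else 0)
      - (if s = e.1 then (e.2.2.2 : ℝ) * 10 ^ 10 else 0)))).sum := by
  unfold bS
  rw [list_sum_cast]
  apply list_sum_congr
  intro e _
  rw [list_sum_range, Int.cast_sum]
  apply Finset.sum_congr rfl
  intro jj _
  rw [Int.cast_sub]
  congr 1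
  · split_ifs <;> simp
  · split_ifs <;> norm_num

/-- influence of a unit pause at the index i with d searches done -/
noncomputable def chf (T x0 z : ℝ) (th : ℂ) (r i d : ℕ) (a s : ℕ) : ℝ :=
  if i < r + s ∧ r + s ≤ i + 1200 then
    Ck T x0 i / Ck T x0 (r + a) * Gd T x0 z th d (r + s - 1 - i) else 0

noncomputable def zef (T x0 : ℝ) (r sp d : ℕ) (a s : ℕ) : ℝ :=
  if sp < s then Ck T x0 (r + s) / Ck T x0 (r + a) * ((zm d : ℝ) / 10 ^ 14) else 0

/-- facts about the cycle -/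
structure LF (T x0 z : ℝ) (th : ℂ) (r cb : ℕ) : Prop where
  hx0 : 0 < x0
  hX : XB x0
  cb1 : 79 ≤ cb
  cb2 : cb ≤ 87
  C : ∀ i, i ≤ r + 15 → 0 < Ck T x0 i
  G : ∀ s a, s ≤ a → a ≤ 15 → ∃ G : ℝ, 1 ≤ G ∧ G ≤ 10001 / 10 ^ 4 ∧
    Ck T x0 (r + s) = G * x0 ^ (a - s) * Ck T x0 (r + a)
  tab : ∀ d l : ℕ, 1 ≤ d → d ≤ 10 → l < 1200 →
    x0 ^ (l + 1) * Gd T x0 z th d l ≤ ((gT d l + 2 : ℤ) : ℝ) / 10 ^ 10

lemma own_le {T x0 z : ℝ} {th : ℂ} {r cb : ℕ} (b : NumA) (F : LF T x0 z th r cb) {sp d : ℕ}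
    (hsp : sp < 16) (hd1 : 1 ≤ d) (hd10 : d ≤ 10) {c ε : ℤ} (hε : ε = -1 ∨ ε = 0 ∨ ε = 1)
    (hc : c = (cb : ℤ) - 8 * sp + ε) (hdc : d ≤ dmt c) :
    SS cb (zef T x0 r sp d) + SS cb (chf T x0 z th r (r + sp) d)
      + (bS cb sp : ℝ) * d / (56 * 10 ^ 24) ≤ 0.23 * ((kct d c : ℝ) / 10 ^ 14) := by
  have hsel := selok_of b F.cb1 F.cb2
  have hz : SS cb (zef T x0 r sp d) ≤ (∑ s ∈ range 16,
      ((aXp cb s (if sp < s then cdiv (zm d) (10 ^ 4) else 0) : ℤ) : ℝ)) / 10 ^ 34 := by
    apply SS_le x0 F.hx0 F.hX cb hsel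
    intro e he s hs hse
    have ha := (hsel e he).1
    obtain ⟨G, g1, g2, g3⟩ := F.G s e.1 hse ha
    refine ⟨G, g1, g2, ?_⟩
    unfold zef
    by_cases h : sp < s
    · rw [if_pos h, if_pos h]
      have hC := F.C (r + e.1) (by omega)
      have hpow : 0 < x0 ^ (e.1 - s) := pow_pos F.hx0 _
      have h1 : Ck T x0 (r + s) / Ck T x0 (r + e.1) = G * x0 ^ (e.1 - s) := by
        rw [g3]; field_simp
      rw [h1]
      apply mul_le_mul_of_nonneg_left _ (mul_nonneg (by linarith) hpow.le)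
      have h2 := le_cdiv (zm d) (10 ^ 4) (by norm_num)
      rw [show (((10 ^ 4 : ℤ)) : ℝ) = 10 ^ 4 by norm_num] at h2
      calc (zm d : ℝ) / 10 ^ 14 = ((zm d : ℝ) / 10 ^ 4) / 10 ^ 10 := by ring
        _ ≤ _ := div_le_div_of_nonneg_right h2 (by norm_num)
    · rw [if_neg h, if_neg h]
      simp
  have hx : SS cb (chf T x0 z th r (r + sp) d) ≤ (∑ s ∈ range 16,
      ((aXp cb s (if sp < s then gT d (s - sp - 1) + 2 else 0) : ℤ) : ℝ)) / 10 ^ 34 := by
    apply SS_le x0 F.hx0 F.hX cb hsel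
    intro e he s hs hse
    have ha := (hsel e he).1
    by_cases h : sp < s
    · obtain ⟨G, g1, g2, g3⟩ := F.G sp e.1 (by omega) ha
      refine ⟨G, g1, g2, ?_⟩
      unfold chf
      rw [if_pos ⟨by omega, by omega⟩, if_pos h]
      have hC := F.C (r + e.1) (by omega)
      have hpow : 0 < x0 ^ (e.1 - s) := pow_pos F.hx0 _
      have h1 : Ck T x0 (r + sp) / Ck T x0 (r + e.1) = G * x0 ^ (e.1 - sp) := by
        rw [g3]; field_simp
      have h2 : x0 ^ (e.1 - sp) = x0 ^ (e.1 - s) * x0 ^ (s - sp - 1 + 1) := by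
        rw [← pow_add]; congr 1; omega
      have h3 : r + s - 1 - (r + sp) = s - sp - 1 := by omega
      rw [h1, h2, h3]
      have h4 := F.tab d (s - sp - 1) hd1 hd10 (by omega)
      calc G * (x0 ^ (e.1 - s) * x0 ^ (s - sp - 1 + 1)) * Gd T x0 z th d (s - sp - 1)
          = G * x0 ^ (e.1 - s) * (x0 ^ (s - sp - 1 + 1) * Gd T x0 z th d (s - sp - 1)) := by ring
        _ ≤ _ := mul_le_mul_of_nonneg_left h4 (mul_nonneg (by linarith) hpow.le)
    · refine ⟨1, le_rfl, by norm_num, ?_⟩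
      unfold chf
      rw [if_neg (by omega), if_neg h]
      simp
  have hok := b.lo.loOwn cb F.cb1 F.cb2
  unfold loOwnok at hok
  have h1 := List.all_eq_true.1 hok sp (List.mem_range.2 hsp)
  have h2 := List.all_eq_true.1 h1 ε (by rcases hε with h | h | h <;> simp [h])
  simp only at h2
  rw [← hc] at h2
  have h3 := of_decide_eq_true (List.all_eq_true.1 h2 (d - 1) (List.mem_range.2 (by omega)))
  have h4 : d - 1 + 1 = d := by omega
  rw [h4] at h3
  unfold loOwn at h3
  rw [list_sum_range] at h3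
  set S1 : ℤ := ∑ s ∈ range 16, aXp cb s (if sp < s then cdiv (zm d) (10 ^ 4) else 0) with hS1
  set S2 : ℤ := ∑ s ∈ range 16, aXp cb s (if sp < s then gT d (s - sp - 1) + 2 else 0) with hS2
  have h5 : ∑ s ∈ range 16, (if sp < s then aXp cb s (gT d (s - sp - 1) + 2)
      + aXp cb s (cdiv (zm d) (10 ^ 4)) else 0) = S1 + S2 := by
    rw [hS1, hS2, ← Finset.sum_add_distrib]
    apply Finset.sum_congr rfl
    intro s _
    split_ifs
    · ring
    · rw [aXp_zero]; ring
  rw [h5] at h3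
  rw [← Int.cast_sum, ← hS1] at hz
  rw [← Int.cast_sum, ← hS2] at hx
  have h6 : (56 * ((S1 : ℝ) + S2) + (bS cb sp : ℝ) * d * 10 ^ 10) * 10 ^ 4
      ≤ 2300 * 56 * (kct d c : ℝ) * 10 ^ 20 := by exact_mod_cast h3
  have h7 : (S1 : ℝ) / 10 ^ 34 + (S2 : ℝ) / 10 ^ 34 + (bS cb sp : ℝ) * d / (56 * 10 ^ 24)
      = ((56 * ((S1 : ℝ) + S2) + (bS cb sp : ℝ) * d * 10 ^ 10) * 10 ^ 4) / (56 * 10 ^ 38) := by
    ring
  have h8 : ((56 * ((S1 : ℝ) + S2) + (bS cb sp : ℝ) * d * 10 ^ 10) * 10 ^ 4) / (56 * 10 ^ 38)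
      ≤ (2300 * 56 * (kct d c : ℝ) * 10 ^ 20) / (56 * 10 ^ 38) :=
    div_le_div_of_nonneg_right h6 (by norm_num)
  have h9 : (2300 * 56 * (kct d c : ℝ) * 10 ^ 20) / (56 * 10 ^ 38) = 0.23 * ((kct d c : ℝ) / 10 ^ 14) := by
    ring
  linarith

lemma past_le {T x0 z : ℝ} {th : ℂ} {r cb : ℕ} (b : NumA) (F : LF T x0 z th r cb) {i d q : ℕ}
    (hi : i < r) (hd1 : 1 ≤ d) (hd10 : d ≤ 10) {c : ℤ} (hq1 : 1 ≤ q) (hq2 : q ≤ 25)
    (hF1 : Ck T x0 i ≤ Ck T x0 r * x0 ^ (r - i) * (1 + ((q : ℝ) + 1) / 10 ^ 4))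
    (hc1 : (cb : ℤ) + 8 * ((r : ℤ) - i) - qF q + qelo q ≤ c)
    (hc2 : c ≤ (cb : ℤ) + 8 * ((r : ℤ) - i) - qF q + qehi q)
    (hc3 : -47 ≤ c) (hc4 : c < 24) (hdc : d ≤ dmt c) :
    SS cb (chf T x0 z th r i d) ≤ (chiL.getD q 0 : ℝ) / 10 ^ 4 * ((kct d c : ℝ) / 10 ^ 14) := by
  have hsel := selok_of b F.cb1 F.cb2
  have hCr := F.C r (by omega)
  have hCi := F.C i (by omega)
  have hpr : 0 < x0 ^ (r - i) := pow_pos F.hx0 _
  set F0 : ℝ := Ck T x0 i / (Ck T x0 r * x0 ^ (r - i)) with hF0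
  have hF00 : 0 ≤ F0 := by rw [hF0]; positivity
  have hF0u : F0 ≤ 1 + ((q : ℝ) + 1) / 10 ^ 4 := by
    rw [hF0, div_le_iff₀ (by positivity)]
    linarith
  have hCiF : Ck T x0 i = F0 * (Ck T x0 r * x0 ^ (r - i)) := by
    rw [hF0]; field_simp
  set Lam : ℤ := (r : ℤ) - i with hLam
  have h1 : SS cb (chf T x0 z th r i d) = F0 * SS cb (fun a s =>
      if i < r + s ∧ r + s ≤ i + 1200 then
        (Ck T x0 r * x0 ^ (r - i)) / Ck T x0 (r + a) * Gd T x0 z th d (r + s - 1 - i) else 0) := by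
    rw [← SS_mul]
    apply SS_congr
    intro e _ s _ _
    unfold chf
    split_ifs
    · rw [hCiF]; ring
    · ring
  have h2 : SS cb (fun a s =>
      if i < r + s ∧ r + s ≤ i + 1200 then
        (Ck T x0 r * x0 ^ (r - i)) / Ck T x0 (r + a) * Gd T x0 z th d (r + s - 1 - i) else 0)
      ≤ (∑ s ∈ range 16, ((aXp cb s (if 0 ≤ Lam + s - 1 ∧ Lam + s - 1 < 1200 then
        gT d (Lam + s - 1).toNat + 2 else 0) : ℤ) : ℝ)) / 10 ^ 34 := by
    apply SS_le x0 F.hx0 F.hX cb hsel
    intro e he s hs hse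
    have ha := (hsel e he).1
    obtain ⟨G, g1, g2, g3⟩ := F.G 0 e.1 (by omega) ha
    simp only [Nat.sub_zero, Nat.add_zero] at g3
    refine ⟨G, g1, g2, ?_⟩
    by_cases h : r + s ≤ i + 1200
    · rw [if_pos ⟨by omega, h⟩, if_pos ⟨by omega, by omega⟩]
      have hC := F.C (r + e.1) (by omega)
      have hpow : 0 < x0 ^ (e.1 - s) := pow_pos F.hx0 _
      have h3 : (Ck T x0 r * x0 ^ (r - i)) / Ck T x0 (r + e.1) = G * (x0 ^ e.1 * x0 ^ (r - i)) := by
        rw [g3]; field_simp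
      have h4 : x0 ^ e.1 * x0 ^ (r - i) = x0 ^ (e.1 - s) * x0 ^ (r + s - 1 - i + 1) := by
        rw [← pow_add, ← pow_add]; congr 1; omega
      have h5 : (Lam + s - 1).toNat = r + s - 1 - i := by omega
      rw [h3, h4, h5]
      have h6 := F.tab d (r + s - 1 - i) hd1 hd10 (by omega)
      calc G * (x0 ^ (e.1 - s) * x0 ^ (r + s - 1 - i + 1)) * Gd T x0 z th d (r + s - 1 - i)
          = G * x0 ^ (e.1 - s) * (x0 ^ (r + s - 1 - i + 1) * Gd T x0 z th d (r + s - 1 - i)) := by ring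
        _ ≤ _ := mul_le_mul_of_nonneg_left h6 (mul_nonneg (by linarith) hpow.le)
    · rw [if_neg (fun h' => h h'.2), if_neg (by omega)]
      simp
  rw [← Int.cast_sum] at h2
  have h3 : ∑ s ∈ range 16, aXp cb s (if 0 ≤ Lam + s - 1 ∧ Lam + s - 1 < 1200 then
        gT d (Lam + s - 1).toNat + 2 else 0) = loPast cb Lam d := by
    unfold loPast
    rw [list_sum_range]
    apply Finset.sum_congr rfl
    intro s _
    split_ifs
    · rfl
    · exact aXp_zero cb s
  rw [h3] at h2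
  -- the check
  have hqd : qehi q - qelo q ≤ 16 := by
    interval_cases q <;> decide
  have hok := b.past cb q F.cb1 F.cb2 hq1 hq2
  unfold loPastok at hok
  simp only at hok
  set l0 : ℤ := (-47 - (cb : ℤ) - qehi q + qF q) / 8 with hl0
  have hi1 : l0 ≤ Lam := by rw [hl0]; omega
  have hi2 : Lam < l0 + 14 := by rw [hl0]; omega
  have h4 := List.all_eq_true.1 hok (Lam - l0).toNat (List.mem_range.2 (by omega))
  have h5 : l0 + (((Lam - l0).toNat : ℕ) : ℤ) = Lam := by omega
  rw [h5] at h4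
  have h6 := List.all_eq_true.1 h4 (c - ((cb : ℤ) + 8 * Lam - qF q + qelo q)).toNat
    (List.mem_range.2 (by omega))
  have h7 : (cb : ℤ) + 8 * Lam - qF q + qelo q
      + (((c - ((cb : ℤ) + 8 * Lam - qF q + qelo q)).toNat : ℕ) : ℤ) = c := by omega
  rw [h7] at h6
  have h8 := of_decide_eq_true (List.all_eq_true.1 h6 (d - 1) (List.mem_range.2 (by omega)))
  have h9 : d - 1 + 1 = d := by omega
  rw [h9] at h8
  have h10 : (loPast cb Lam d : ℝ) * (10 ^ 4 + q + 2)
      ≤ (chiL.getD q 0 : ℝ) * (kct d c : ℝ) * 10 ^ 20 := by exact_mod_cast h8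
  rw [h1]
  refine le_trans (mul_le_mul_of_nonneg_left h2 hF00) ?_
  have hqr : (0 : ℝ) ≤ q := Nat.cast_nonneg _
  rcases le_or_gt 0 (loPast cb Lam d : ℝ) with hp | hp
  · have h11 : F0 * ((loPast cb Lam d : ℝ) / 10 ^ 34)
        ≤ ((10 ^ 4 + q + 2) / 10 ^ 4) * ((loPast cb Lam d : ℝ) / 10 ^ 34) := by
      apply mul_le_mul_of_nonneg_right _ (by positivity)
      refine le_trans hF0u ?_
      have h12 : (10 ^ 4 + (q : ℝ) + 2) / 10 ^ 4 = 1 + ((q : ℝ) + 1) / 10 ^ 4 + 1 / 10 ^ 4 := by ring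
      rw [h12]
      have : (0 : ℝ) ≤ 1 / 10 ^ 4 := by norm_num
      linarith
    refine le_trans h11 ?_
    calc ((10 ^ 4 + (q : ℝ) + 2) / 10 ^ 4) * ((loPast cb Lam d : ℝ) / 10 ^ 34)
        = ((loPast cb Lam d : ℝ) * (10 ^ 4 + q + 2)) / 10 ^ 38 := by ring
      _ ≤ ((chiL.getD q 0 : ℝ) * (kct d c : ℝ) * 10 ^ 20) / 10 ^ 38 :=
          div_le_div_of_nonneg_right h10 (by norm_num)
      _ = _ := by ring
  · have h11 : F0 * ((loPast cb Lam d : ℝ) / 10 ^ 34) ≤ 0 :=
      mul_nonpos_of_nonneg_of_nonpos hF00 (div_nonpos_of_nonpos_of_nonneg hp.le (by norm_num))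
    refine le_trans h11 (by positivity)

lemma DD_one (D : ℕ → ℝ) (κ cd u : ℝ) (a i : ℕ) (ha : a < 16) (hi : i ≤ a) :
    ∑ s ∈ range 16, ((if s + 1 + i = a then cd else 0) - (if s = a then u else 0)) * (κ * D s)
      = (if i < a then cd * (κ * D (a - 1 - i)) else 0) - u * (κ * D a) := by
  simp only [sub_mul, Finset.sum_sub_distrib, ite_mul, zero_mul]
  congr 1
  · by_cases h : i < a
    · rw [if_pos h, Finset.sum_eq_single (a - 1 - i)]
      · rw [if_pos (by omega)]
      · intro s _ hs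
        rw [if_neg (by omega)]
      · intro hs
        exact absurd (Finset.mem_range.2 (by omega)) hs
    · rw [if_neg h]
      apply Finset.sum_eq_zero
      intro s _
      rw [if_neg (by omega)]
  · rw [Finset.sum_ite_eq' (range 16) a (fun s => u * (κ * D s)), if_pos (Finset.mem_range.2 ha)]

lemma DD_ge {T x0 z : ℝ} {th : ℂ} {r cb : ℕ} (b : NumA) (F : LF T x0 z th r cb)
    (hD : ∀ s, s < 16 → 0 ≤ Dh T x0 (r + s)) (hr : 1 ≤ r) (hDr : Dn T (1525 + (r - 1)) = 0) :
    - ∑ sp ∈ range 16, (bS cb sp : ℝ) / (56 * 10 ^ 24) * Dh T x0 (r + sp)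
      ≤ ((selL cb).map (fun e => (e.2.2.2 : ℝ) / 10 ^ 14 *
        ∑ i ∈ Finset.Ico e.2.1 (e.2.1 + e.2.2.1),
          (Dn T (1525 + (r + e.1)) - Dn T (1525 + (r + e.1 - 1 - i))) / 56
            / Ck T x0 (r + e.1))).sum := by
  have hsel := selok_of b F.cb1 F.cb2
  have h1 : ∑ sp ∈ range 16, (bS cb sp : ℝ) / (56 * 10 ^ 24) * Dh T x0 (r + sp)
      = ((selL cb).map (fun e => ∑ jj ∈ range e.2.2.1, ∑ s ∈ range 16,
        ((if s + 1 + (e.2.1 + jj) = e.1 then
          ((cdiv ((e.2.2.2 : ℤ) * X0hi (e.2.1 + jj + 1) * 10001) (10 ^ 4) : ℤ) : ℝ) else 0)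
        - (if s = e.1 then (e.2.2.2 : ℝ) * 10 ^ 10 else 0))
        * (1 / (56 * 10 ^ 24) * Dh T x0 (r + s)))).sum := by
    have h2 : ∀ sp ∈ range 16, (bS cb sp : ℝ) / (56 * 10 ^ 24) * Dh T x0 (r + sp)
        = ((selL cb).map (fun e => ∑ jj ∈ range e.2.2.1,
        ((if sp + 1 + (e.2.1 + jj) = e.1 then
          ((cdiv ((e.2.2.2 : ℤ) * X0hi (e.2.1 + jj + 1) * 10001) (10 ^ 4) : ℤ) : ℝ) else 0)
        - (if sp = e.1 then (e.2.2.2 : ℝ) * 10 ^ 10 else 0))
        * (1 / (56 * 10 ^ 24) * Dh T x0 (r + sp)))).sum := by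
      intro sp _
      rw [bS_cast]
      have h3 : ∀ X : ℝ, X / (56 * 10 ^ 24) * Dh T x0 (r + sp)
          = (1 / (56 * 10 ^ 24) * Dh T x0 (r + sp)) * X := by intro X; ring
      rw [h3, ← list_sum_mul]
      apply list_sum_congr
      intro e _
      rw [Finset.mul_sum]
      apply Finset.sum_congr rfl
      intro jj _
      ring
    rw [Finset.sum_congr rfl h2, ← list_sum_comm]
    apply list_sum_congr
    intro e _
    rw [Finset.sum_comm]
  rw [h1]
  have h4 : ∀ L : List (ℕ × ℕ × ℕ × ℕ), ∀ f : ℕ × ℕ × ℕ × ℕ → ℝ,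
      - (L.map f).sum = (L.map (fun e => - f e)).sum := by
    intro L f
    have := list_sum_mul L (-1) f
    simp only [neg_mul, one_mul] at this
    exact this.symm
  rw [h4]
  apply list_sum_le
  intro e he
  obtain ⟨ha, hm⟩ := hsel e he
  rw [Finset.mul_sum, Finset.sum_Ico_eq_sum_range, ← Finset.sum_neg_distrib]
  have h5 : e.2.1 + e.2.2.1 - e.2.1 = e.2.2.1 := by omega
  rw [h5]
  apply Finset.sum_le_sum
  intro jj hjj
  rw [Finset.mem_range] at hjj
  set i : ℕ := e.2.1 + jj with hi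
  have hia : i ≤ e.1 := by omega
  rw [DD_one (fun s => Dh T x0 (r + s)) _ _ _ e.1 i (by omega) hia]
  have hC := F.C (r + e.1) (by omega)
  have hDa : Dn T (1525 + (r + e.1)) = Ck T x0 (r + e.1) * Dh T x0 (r + e.1) := by
    unfold Dh
    rw [show Cn T x0 (1525 + (r + e.1)) = Ck T x0 (r + e.1) from rfl]
    field_simp
  have hu : (0 : ℝ) ≤ (e.2.2.2 : ℝ) := Nat.cast_nonneg _
  by_cases hlt : i < e.1
  · rw [if_pos hlt]
    have h6 : r + e.1 - 1 - i = r + (e.1 - 1 - i) := by omega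
    rw [h6]
    set s : ℕ := e.1 - 1 - i with hs
    obtain ⟨G, g1, g2, g3⟩ := F.G s e.1 (by omega) ha
    have h7 : e.1 - s = i + 1 := by omega
    rw [h7] at g3
    have hCs := F.C (r + s) (by omega)
    have hDs : Dn T (1525 + (r + s)) = Ck T x0 (r + s) * Dh T x0 (r + s) := by
      unfold Dh
      rw [show Cn T x0 (1525 + (r + s)) = Ck T x0 (r + s) from rfl]
      field_simp
    have hDs0 := hD s (by omega)
    obtain ⟨-, x2⟩ := F.hX (i + 1) (by omega)
    have hpow : 0 < x0 ^ (i + 1) := pow_pos F.hx0 _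
    rw [hDa, hDs, g3]
    have h8 : (Ck T x0 (r + e.1) * Dh T x0 (r + e.1)
        - G * x0 ^ (i + 1) * Ck T x0 (r + e.1) * Dh T x0 (r + s)) / 56 / Ck T x0 (r + e.1)
        = (Dh T x0 (r + e.1) - G * x0 ^ (i + 1) * Dh T x0 (r + s)) / 56 := by
      field_simp
    rw [h8]
    have h9 := le_cdiv ((e.2.2.2 : ℤ) * X0hi (i + 1) * 10001) (10 ^ 4) (by norm_num)
    rw [show (((10 ^ 4 : ℤ)) : ℝ) = 10 ^ 4 by norm_num, Int.cast_mul, Int.cast_mul] at h9
    have h9' : (e.2.2.2 : ℝ) * X0hi (i + 1) * 10001 / 10 ^ 4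
        ≤ ((cdiv ((e.2.2.2 : ℤ) * X0hi (i + 1) * 10001) (10 ^ 4) : ℤ) : ℝ) := by
      simpa using h9
    have h10 : (e.2.2.2 : ℝ) / 10 ^ 14 * (G * x0 ^ (i + 1))
        ≤ ((cdiv ((e.2.2.2 : ℤ) * X0hi (i + 1) * 10001) (10 ^ 4) : ℤ) : ℝ) / 10 ^ 24 := by
      have h11 : G * x0 ^ (i + 1) ≤ 10001 / 10 ^ 4 * ((X0hi (i + 1) : ℝ) / 10 ^ 10) :=
        mul_le_mul g2 x2 hpow.le (by norm_num)
      refine le_trans (mul_le_mul_of_nonneg_left h11 (by positivity)) ?_
      calc (e.2.2.2 : ℝ) / 10 ^ 14 * (10001 / 10 ^ 4 * ((X0hi (i + 1) : ℝ) / 10 ^ 10))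
          = ((e.2.2.2 : ℝ) * X0hi (i + 1) * 10001 / 10 ^ 4) / 10 ^ 24 := by ring
        _ ≤ _ := div_le_div_of_nonneg_right h9' (by norm_num)
    have h12 := mul_le_mul_of_nonneg_right h10 hDs0
    have h13 : (e.2.2.2 : ℝ) / 10 ^ 14 * ((Dh T x0 (r + e.1) - G * x0 ^ (i + 1) * Dh T x0 (r + s)) / 56)
        = (e.2.2.2 : ℝ) * 10 ^ 10 * (1 / (56 * 10 ^ 24) * Dh T x0 (r + e.1))
          - ((e.2.2.2 : ℝ) / 10 ^ 14 * (G * x0 ^ (i + 1)) * Dh T x0 (r + s)) / 56 := by ring
    rw [h13]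
    have h14 : ((cdiv ((e.2.2.2 : ℤ) * X0hi (i + 1) * 10001) (10 ^ 4) : ℤ) : ℝ)
        * (1 / (56 * 10 ^ 24) * Dh T x0 (r + s))
        = (((cdiv ((e.2.2.2 : ℤ) * X0hi (i + 1) * 10001) (10 ^ 4) : ℤ) : ℝ) / 10 ^ 24
          * Dh T x0 (r + s)) / 56 := by ring
    rw [h14]
    have h15 := div_le_div_of_nonneg_right h12 (show (0 : ℝ) ≤ 56 by norm_num)
    linarith
  · rw [if_neg hlt]
    have h6 : r + e.1 - 1 - i = r - 1 := by omega
    rw [h6, hDr, hDa]
    apply le_of_eq
    field_simp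
    ring


theorem lo (a : AlgA) (b : NumA) (hLows : LowsStmt) (hLosel : LoselStmt) (hProd : ProdStmt)
    (hRef : RefStmt) (hDrift : DriftStmt) (hCycb : CycbStmt) : LoStmt := by
  intro T x0 z th ctx k hh j hj hjk hA
  obtain ⟨-, -, Rall⟩ := hRef T x0 z th ctx k hh
  obtain ⟨r1, r2, r3, r4, r5, r6, r7, -⟩ := Rall j (by omega)
  obtain ⟨s1, -, -, -, s5, s6, -, -⟩ := Rall (j + 1) (by push_cast; omega)
  have hlen := r7 hjk
  obtain ⟨p1, p2, p3, -⟩ := hProd T x0 z th ctx k hh
  have hval := val_lt ctx hh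
  set r := ref T x0 th j with hrdef
  set r' := ref T x0 th (j + 1) with hr'def
  have hr16 : r + 48 ≤ r' := by omega
  have hrk : r + 48 ≤ k := by omega
  have hcyc : ∀ s, s < 48 → cyc T x0 th (r + s) = j := by
    intro s hs
    have h1 := r6 (r + s) (by omega) (by omega)
    have h2 := s5 (r + s) (by omega)
    push_cast at h2
    omega
  have hr1 : 1 ≤ r := by
    by_contra hcon
    have h0 : r = 0 := by omega
    have h1 := (hCycb T x0 z th ctx 0).2.2.2.2.2.2.1
    rw [h0] at r2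
    rw [r2] at h1
    omega
  obtain ⟨-, -, c1, c2, -, c3, -⟩ := hCycb T x0 z th ctx r
  set cb : ℕ := (cell T x0 th r).toNat with hcbdef
  have hcb : (cb : ℤ) = cell T x0 th r := by omega
  have hx0 : 0 < x0 := by have := ctx.nr.x0_lo; linarith
  have F : LF T x0 z th r cb := by
    refine ⟨hx0, ctx.nr.x0_pow, by omega, by omega, ?_, ?_, ?_⟩
    · intro i hi
      exact p1 (1525 + i) (by omega) (by omega)
    · intro s e hse he
      have hC : 0 < Ck T x0 (r + e) := p1 (1525 + (r + e)) (by omega) (by omega)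
      have hpow : 0 < x0 ^ (e - s) := pow_pos hx0 _
      have h1 : Ck T x0 (r + e) * x0 ^ (e - s) ≤ Ck T x0 (r + s) := by
        have := p2 (1525 + (r + s)) (1525 + (r + e)) (by omega) (by omega) (by omega)
        have h2 : 1525 + (r + e) - (1525 + (r + s)) = e - s := by omega
        rw [h2] at this
        exact this
      have h3 : Ck T x0 (r + s) ≤ Ck T x0 (r + e) * x0 ^ (e - s) * (10001 / 10 ^ 4) := by
        have := p3 (r + s) (r + e) (by omega) (by omega) (by omega)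
        rw [hcyc s (by omega), hcyc e (by omega)] at this
        have h2 : r + e - (r + s) = e - s := by omega
        rw [h2] at this
        have h4 : (1 : ℝ) + (((j : ℤ) : ℝ) - ((j : ℤ) : ℝ) + 1) / 10 ^ 4 = 10001 / 10 ^ 4 := by
          rw [sub_self]; norm_num
        rw [h4] at this
        exact this
      refine ⟨Ck T x0 (r + s) / (Ck T x0 (r + e) * x0 ^ (e - s)), ?_, ?_, ?_⟩
      · rw [le_div_iff₀ (by positivity)]; linarith
      · rw [div_le_iff₀ (by positivity)]; linarith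
      · field_simp
    · intro d l hd1 hd10 hl
      have h1 := (abs_le.1 (b.tab T x0 z th ctx.Tl ctx.Tu ctx.rt d l hd1 hd10 hl)).2
      rw [Int.cast_add, show (((2 : ℤ)) : ℝ) = 2 by norm_num, add_div]
      linarith
  have hsel := selok_of b F.cb1 F.cb2
  have hCpos : ∀ i, i < k → 0 < Cn T x0 (1525 + i) := fun i hi =>
    p1 (1525 + i) (by omega) (by omega)
  -- pauses
  have hPd : ∀ i, i < k → (∀ d, 1 ≤ d → d ≤ 55 → 0 ≤ pih T x0 i d) ∧
      (∀ d, 1 ≤ d → d ≤ 55 → dmt (cell T x0 th i) < d → pih T x0 i d = 0) ∧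
      Dh T x0 i = ∑ d ∈ Finset.Icc (1 : ℕ) 55, (d : ℝ) * pih T x0 i d := by
    intro i hi
    obtain ⟨q1, q2, q3, -⟩ := a.pds T (1525 + i) (fun m hm => hval m (by omega))
    have hC := hCpos i hi
    have hk := (hh i hi).kle
    have hdm := b.pass.dmax (cell T x0 th i)
    refine ⟨?_, ?_, ?_⟩
    · intro d hd1 hd2
      exact div_nonneg (q1 d hd1 hd2).1 hC.le
    · intro d _ hd2 hd3
      unfold pih
      rw [q2 d (by omega) hd2, zero_div]
    · unfold Dh pih
      rw [← q3 (by omega), Finset.sum_div]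
      apply Finset.sum_congr rfl
      intro d _
      ring
  have hDh0 : ∀ i, i < k → 0 ≤ Dh T x0 i := by
    intro i hi
    exact div_nonneg (Dn_nonneg T _) (hCpos i hi).le
  have hkk : ∀ i, i < k → 0 ≤ kk T x0 th i := by
    intro i hi
    unfold kk
    apply Finset.sum_nonneg
    intro d hd
    rw [Finset.mem_Icc] at hd
    exact mul_nonneg (by positivity) ((hPd i hi).1 d hd.1 hd.2)
  -- the index r - 1
  have hDr : Dn T (1525 + (r - 1)) = 0 := by
    have hhr : HH T x0 z th r := fun i hi => hh i (by omega)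
    have hout := out_of ctx hDrift hCycb hhr (t := 1) (by omega) (by omega) (by left; omega)
    have h1 := (hh (r - 1) (by omega)).Dle
    rw [Dt_out hout] at h1
    have h2 := Dn_nonneg T (1525 + (r - 1))
    simp only [Nat.cast_zero, zero_div, mul_zero] at h1
    linarith
  have hDD := DD_ge b F (fun s hs => hDh0 (r + s) (by omega)) hr1 hDr
  -- selected reductions
  have hKK : ((selL cb).map (fun e => kk T x0 th (r + e.1))).sum ≤ KK T x0 th j := by
    have h1 : ((selL cb).map (fun e => kk T x0 th (r + e.1))).sum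
        = (((selL cb).map (fun e => e.1)).map (fun s => kk T x0 th (r + s))).sum := by
      rw [List.map_map]; rfl
    rw [h1]
    refine le_trans (list_sum_range_le _ (nodup_of F.cb1 F.cb2) 16 ?_ _ ?_) ?_
    · intro x hx
      rw [List.mem_map] at hx
      obtain ⟨e, he, rfl⟩ := hx
      have := (hsel e he).1
      omega
    · intro x hx
      exact hkk (r + x) (by omega)
    · unfold KK
      rw [← hrdef, ← hr'def, Finset.sum_Ico_eq_sum_range]
      apply Finset.sum_le_sum_of_subset_of_nonneg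
      · intro x hx
        rw [Finset.mem_range] at hx ⊢
        omega
      · intro x hx _
        rw [Finset.mem_range] at hx
        exact hkk (r + x) (by omega)
  -- Losel divided by C
  have hL1 : SS cb (fun e s => - (Wn T (1525 + (r + s)) / Ck T x0 (r + e)))
      + ((selL cb).map (fun e => (e.2.2.2 : ℝ) / 10 ^ 14 *
        ∑ i ∈ Finset.Ico e.2.1 (e.2.1 + e.2.2.1),
          (Dn T (1525 + (r + e.1)) - Dn T (1525 + (r + e.1 - 1 - i))) / 56
            / Ck T x0 (r + e.1))).sum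
      ≤ ((selL cb).map (fun e => kk T x0 th (r + e.1))).sum := by
    rw [← SS_rearr cb hsel, ← list_sum_add]
    apply list_sum_le
    intro e he
    obtain ⟨ha, hm⟩ := hsel e he
    have h1 := hLosel T x0 z th ctx k hh j hj hjk e he
    rw [← hrdef] at h1
    have hC := F.C (r + e.1) (by omega)
    rw [← mul_add, ← Finset.sum_add_distrib]
    have h2 : ∑ i ∈ Finset.Ico e.2.1 (e.2.1 + e.2.2.1),
        (∑ t ∈ range (i + 1), - (Wn T (1525 + (r + (e.1 - t))) / Ck T x0 (r + e.1))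
          + (Dn T (1525 + (r + e.1)) - Dn T (1525 + (r + e.1 - 1 - i))) / 56 / Ck T x0 (r + e.1))
        = (∑ i ∈ Finset.Ico e.2.1 (e.2.1 + e.2.2.1),
          (- ∑ t ∈ range (i + 1), Wn T (1525 + (r + e.1 - t))
            + (Dn T (1525 + (r + e.1)) - Dn T (1525 + (r + e.1 - 1 - i))) / 56))
          / Ck T x0 (r + e.1) := by
      rw [Finset.sum_div]
      apply Finset.sum_congr rfl
      intro i hi
      rw [Finset.mem_Ico] at hi
      rw [add_div]
      congr 1
      rw [← Finset.sum_neg_distrib, Finset.sum_div]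
      apply Finset.sum_congr rfl
      intro t ht
      rw [Finset.mem_range] at ht
      have h3 : r + (e.1 - t) = r + e.1 - t := by omega
      rw [h3]; ring
    rw [h2, ← mul_div_assoc, div_le_iff₀ hC]
    linarith
  -- Lows
  have hL2 : SS cb (fun e s => Wn T (1525 + (r + s)) / Ck T x0 (r + e))
      ≤ SS cb (fun e s => (Ck T x0 (r + s) / Ck T x0 (r + e) * ((W0N cb s : ℝ) / 10 ^ 10 + 7.5 / 10 ^ 4)
        + ∑ sp ∈ range 16, ∑ d ∈ Finset.Icc (1 : ℕ) 55, pih T x0 (r + sp) d * zef T x0 r sp d e s)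
        + ∑ i ∈ range (r + 16), ∑ d ∈ Finset.Icc (1 : ℕ) 55, pih T x0 i d * chf T x0 z th r i d e s) := by
    apply SS_mono
    intro e he s hs hse
    have ha := (hsel e he).1
    have hC := F.C (r + e.1) (by omega)
    have h1 := hLows T x0 z th ctx k hh j hj hjk hA s hs
    rw [← hrdef, ← hcbdef] at h1
    have h2 : Ck T x0 (r + s) / Ck T x0 (r + e.1) * ∑ m ∈ Finset.Ico r (r + s), zz T x0 m
        = ∑ sp ∈ range 16, ∑ d ∈ Finset.Icc (1 : ℕ) 55, pih T x0 (r + sp) d * zef T x0 r sp d e.1 s := by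
      have h3 : ∑ m ∈ Finset.Ico r (r + s), zz T x0 m
          = ∑ sp ∈ range 16, if sp < s then zz T x0 (r + sp) else 0 := by
        rw [Finset.sum_Ico_eq_sum_range, ← Finset.sum_filter]
        apply Finset.sum_congr _ (fun _ _ => rfl)
        ext x
        simp only [Finset.mem_range, Finset.mem_filter]
        omega
      rw [h3, Finset.mul_sum]
      apply Finset.sum_congr rfl
      intro sp _
      unfold zef
      split_ifs with h4
      · unfold zz
        rw [Finset.mul_sum]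
        apply Finset.sum_congr rfl
        intro d _
        ring
      · simp
    have h5 : past T x0 z th (r + s) / Ck T x0 (r + e.1)
        = ∑ i ∈ range (r + 16), ∑ d ∈ Finset.Icc (1 : ℕ) 55, pih T x0 i d * chf T x0 z th r i d e.1 s := by
      unfold past
      have h6 : (range (r + s)).filter (fun i => r + s ≤ i + 1200)
          = (range (r + 16)).filter (fun i => i < r + s ∧ r + s ≤ i + 1200) := by
        ext x
        simp only [Finset.mem_range, Finset.mem_filter]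
        omega
      rw [h6, Finset.sum_filter, Finset.sum_div]
      apply Finset.sum_congr rfl
      intro i hi
      rw [Finset.mem_range] at hi
      have hCi := hCpos i (by omega)
      unfold chf
      split_ifs with h7
      · rw [Finset.sum_div]
        apply Finset.sum_congr rfl
        intro d _
        have h8 : pd T (1525 + i) d = Cn T x0 (1525 + i) * pih T x0 i d := by
          unfold pih; field_simp
        have h9 : r + s - 1 - i = r + s - 1 - i := rfl
        rw [h8]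
        unfold Ck
        ring
      · simp
    rw [← h2, ← h5]
    have h10 : Ck T x0 (r + s) / Ck T x0 (r + e.1) * ((W0N cb s : ℝ) / 10 ^ 10 + 7.5 / 10 ^ 4)
        + Ck T x0 (r + s) / Ck T x0 (r + e.1) * ∑ m ∈ Finset.Ico r (r + s), zz T x0 m
        + past T x0 z th (r + s) / Ck T x0 (r + e.1)
        = (Ck T x0 (r + s) * ((W0N cb s : ℝ) / 10 ^ 10 + 7.5 / 10 ^ 4
          + ∑ m ∈ Finset.Ico r (r + s), zz T x0 m) + past T x0 z th (r + s)) / Ck T x0 (r + e.1) := by
      ring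
    rw [h10]
    exact div_le_div_of_nonneg_right h1 hC.le
  rw [SS_add, SS_add, SS_sum, SS_sum] at hL2
  have hL3 : SS cb (fun e s => Ck T x0 (r + s) / Ck T x0 (r + e) * ((W0N cb s : ℝ) / 10 ^ 10 + 7.5 / 10 ^ 4))
      ≤ - (loD cb : ℝ) / 10 ^ 34 := by
    apply SS_D x0 hx0 F.hX cb hsel
    intro e he s hs hse
    have ha := (hsel e he).1
    obtain ⟨G, g1, g2, g3⟩ := F.G s e.1 hse ha
    refine ⟨G, g1, g2, ?_⟩
    have hC := F.C (r + e.1) (by omega)
    rw [g3]
    field_simp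
  have hloD : (12276 : ℝ) / 10 ^ 7 ≤ (loD cb : ℝ) / 10 ^ 34 := by
    have h1 := b.lo.loD cb F.cb1 F.cb2
    unfold loDok at h1
    have h2 := of_decide_eq_true h1
    have h3 : (12276 : ℝ) * 10 ^ 27 ≤ (loD cb : ℝ) := by exact_mod_cast h2
    calc (12276 : ℝ) / 10 ^ 7 = (12276 * 10 ^ 27) / 10 ^ 34 := by norm_num
      _ ≤ _ := div_le_div_of_nonneg_right h3 (by norm_num)
  -- linearity of the pause terms
  have hZ : ∀ sp, SS cb (fun e s => ∑ d ∈ Finset.Icc (1 : ℕ) 55, pih T x0 (r + sp) d * zef T x0 r sp d e s)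
      = ∑ d ∈ Finset.Icc (1 : ℕ) 55, pih T x0 (r + sp) d * SS cb (zef T x0 r sp d) := by
    intro sp
    rw [SS_sum]
    apply Finset.sum_congr rfl
    intro d _
    rw [← SS_mul]
  have hXi : ∀ i, SS cb (fun e s => ∑ d ∈ Finset.Icc (1 : ℕ) 55, pih T x0 i d * chf T x0 z th r i d e s)
      = ∑ d ∈ Finset.Icc (1 : ℕ) 55, pih T x0 i d * SS cb (chf T x0 z th r i d) := by
    intro i
    rw [SS_sum]
    apply Finset.sum_congr rfl
    intro d _
    rw [← SS_mul]
  simp only [hZ, hXi] at hL2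
  rw [Finset.sum_range_add] at hL2
  -- own pauses
  have hown : ∑ sp ∈ range 16, (∑ d ∈ Finset.Icc (1 : ℕ) 55, pih T x0 (r + sp) d * SS cb (zef T x0 r sp d)
      + ∑ d ∈ Finset.Icc (1 : ℕ) 55, pih T x0 (r + sp) d * SS cb (chf T x0 z th r (r + sp) d)
      + (bS cb sp : ℝ) / (56 * 10 ^ 24) * Dh T x0 (r + sp)) ≤ 0.23 * KK T x0 th j := by
    have h1 : ∀ sp ∈ range 16, (∑ d ∈ Finset.Icc (1 : ℕ) 55, pih T x0 (r + sp) d * SS cb (zef T x0 r sp d)
        + ∑ d ∈ Finset.Icc (1 : ℕ) 55, pih T x0 (r + sp) d * SS cb (chf T x0 z th r (r + sp) d)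
        + (bS cb sp : ℝ) / (56 * 10 ^ 24) * Dh T x0 (r + sp)) ≤ 0.23 * kk T x0 th (r + sp) := by
      intro sp hsp
      rw [Finset.mem_range] at hsp
      obtain ⟨q1, q2, q3⟩ := hPd (r + sp) (by omega)
      rw [q3]
      unfold kk
      rw [Finset.mul_sum, Finset.mul_sum, ← Finset.sum_add_distrib, ← Finset.sum_add_distrib]
      apply Finset.sum_le_sum
      intro d hd
      rw [Finset.mem_Icc] at hd
      by_cases hdd : d ≤ dmt (cell T x0 th (r + sp))
      · have hdm := b.pass.dmax (cell T x0 th (r + sp))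
        -- the cell
        obtain ⟨h1, h2, -⟩ := hDrift T x0 z th ctx k hh r (r + sp) (by omega) (by omega)
        have h3 := hcyc sp (by omega)
        have h4 : cyc T x0 th r = j := r2
        rw [h3, h4] at h2
        have h2' := abs_le.1 h2
        obtain ⟨-, -, d1, d2, -⟩ := hCycb T x0 z th ctx (r + sp)
        have hppk : pp T x0 th r = ph T x0 th r + cyc T x0 th r * per th := rfl
        have hppi : pp T x0 th (r + sp) = ph T x0 th (r + sp) + cyc T x0 th (r + sp) * per th := rfl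
        rw [h3] at hppi
        rw [h4] at hppk
        push_cast at h2'
        have hlo : cell T x0 th r - 8 * sp - 1 ≤ cell T x0 th (r + sp) := by
          have : (cell T x0 th r : ℝ) - 8 * sp - 1 < (cell T x0 th (r + sp) : ℝ) + 1 := by
            linarith [h2'.1, h2'.2]
          have h5 : cell T x0 th r - 8 * sp - 1 < cell T x0 th (r + sp) + 1 := by exact_mod_cast this
          omega
        have hhi : cell T x0 th (r + sp) ≤ cell T x0 th r - 8 * sp + 1 := by
          have : (cell T x0 th (r + sp) : ℝ) < (cell T x0 th r : ℝ) - 8 * sp + 2 := by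
            linarith [h2'.1, h2'.2]
          have h5 : cell T x0 th (r + sp) < cell T x0 th r - 8 * sp + 2 := by exact_mod_cast this
          omega
        have h6 := own_le b F (sp := sp) (d := d) hsp hd.1 (by omega)
          (c := cell T x0 th (r + sp)) (ε := cell T x0 th (r + sp) - (cb : ℤ) + 8 * sp)
          (by omega) (by ring) hdd
        have h7 := mul_le_mul_of_nonneg_left h6 (q1 d hd.1 hd.2)
        calc pih T x0 (r + sp) d * SS cb (zef T x0 r sp d)
            + pih T x0 (r + sp) d * SS cb (chf T x0 z th r (r + sp) d)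
            + (bS cb sp : ℝ) / (56 * 10 ^ 24) * ((d : ℝ) * pih T x0 (r + sp) d)
            = pih T x0 (r + sp) d * (SS cb (zef T x0 r sp d) + SS cb (chf T x0 z th r (r + sp) d)
              + (bS cb sp : ℝ) * d / (56 * 10 ^ 24)) := by ring
          _ ≤ _ := h7
          _ = _ := by ring
      · rw [q2 d hd.1 hd.2 (by omega)]
        simp
    refine le_trans (Finset.sum_le_sum h1) ?_
    rw [← Finset.mul_sum]
    apply mul_le_mul_of_nonneg_left _ (by norm_num)
    unfold KK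
    rw [← hrdef, ← hr'def, Finset.sum_Ico_eq_sum_range]
    apply Finset.sum_le_sum_of_subset_of_nonneg
    · intro x hx
      rw [Finset.mem_range] at hx ⊢
      omega
    · intro x hx _
      rw [Finset.mem_range] at hx
      exact hkk (r + x) (by omega)
  -- past pauses
  have hcyc0 : ∀ i, i ≤ k → 0 ≤ cyc T x0 th i := by
    intro i hi
    exact (hRef T x0 z th ctx i (fun m hm => hh m (by omega))).1
  have hpast1 : ∀ i ∈ range r, ∑ d ∈ Finset.Icc (1 : ℕ) 55, pih T x0 i d * SS cb (chf T x0 z th r i d)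
      ≤ ∑ q ∈ Finset.Icc (1 : ℕ) 25, if (q : ℤ) = j - cyc T x0 th i then
        (chiL.getD q 0 : ℝ) / 10 ^ 4 * kk T x0 th i else 0 := by
    intro i hi
    rw [Finset.mem_range] at hi
    obtain ⟨q1, q2, q3⟩ := hPd i (by omega)
    have hrhs0 : 0 ≤ ∑ q ∈ Finset.Icc (1 : ℕ) 25, if (q : ℤ) = j - cyc T x0 th i then
        (chiL.getD q 0 : ℝ) / 10 ^ 4 * kk T x0 th i else 0 := by
      apply Finset.sum_nonneg
      intro q _
      split_ifs
      · exact mul_nonneg (div_nonneg (Nat.cast_nonneg _) (by norm_num)) (hkk i (by omega))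
      · exact le_rfl
    by_cases hfar : r ≤ i + 1200
    · have hcl := r5 i hi
      obtain ⟨h1, h2, -, -, h3⟩ := hDrift T x0 z th ctx k hh i r (by omega) (by omega)
      have h4 := h3 hfar
      rw [r2] at h4 h2
      obtain ⟨q, hq⟩ : ∃ q : ℕ, (q : ℤ) = j - cyc T x0 th i := ⟨(j - cyc T x0 th i).toNat, by omega⟩
      have hq1 : 1 ≤ q := by omega
      have hq2 : q ≤ 25 := by omega
      have h5 : ∑ q' ∈ Finset.Icc (1 : ℕ) 25, (if (q' : ℤ) = j - cyc T x0 th i then
          (chiL.getD q' 0 : ℝ) / 10 ^ 4 * kk T x0 th i else 0)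
          = (chiL.getD q 0 : ℝ) / 10 ^ 4 * kk T x0 th i := by
        rw [Finset.sum_eq_single q]
        · rw [if_pos hq]
        · intro q' _ hne
          rw [if_neg]
          intro h6
          apply hne
          omega
        · intro h6
          exact absurd (Finset.mem_Icc.2 ⟨hq1, hq2⟩) h6
      rw [h5]
      unfold kk
      rw [Finset.mul_sum]
      apply Finset.sum_le_sum
      intro d hd
      rw [Finset.mem_Icc] at hd
      by_cases hdd : d ≤ dmt (cell T x0 th i)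
      · have hdm := b.pass.dmax (cell T x0 th i)
        have hin : -47 ≤ cell T x0 th i ∧ cell T x0 th i < 24 := by
          by_contra hcon
          have := dmt_out (c := cell T x0 th i) (by omega)
          omega
        -- the cell
        have h2' := abs_le.1 h2
        obtain ⟨-, -, d1, d2, -⟩ := hCycb T x0 z th ctx i
        have hppk : pp T x0 th r = ph T x0 th r + cyc T x0 th r * per th := rfl
        have hppi : pp T x0 th i = ph T x0 th i + cyc T x0 th i * per th := rfl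
        rw [r2] at hppk
        have hqr : (q : ℝ) = ((j : ℤ) : ℝ) - (cyc T x0 th i : ℝ) := by
          have : ((q : ℤ) : ℝ) = ((j - cyc T x0 th i : ℤ) : ℝ) := by rw [hq]
          rw [Int.cast_sub] at this
          exact_mod_cast this
        have hrel : pp T x0 th i = pp T x0 th r + (ph T x0 th i - ph T x0 th r) - q * per th := by
          rw [hppk, hppi, hqr]; ring
        have hper := abs_le.1 ctx.nr.per_enc
        rw [← hqr] at h2'
        have hq0 : (0 : ℝ) ≤ q := Nat.cast_nonneg _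
        have hq25 : (q : ℝ) ≤ 25 := by exact_mod_cast hq2
        have hperq1 : (q : ℝ) * per th ≤ q * (48855782394283 / 10 ^ 12) + 25 / 10 ^ 9 := by
          have h8 : (q : ℝ) * per th ≤ q * (48855782394283 / 10 ^ 12 + 1 / 10 ^ 9) :=
            mul_le_mul_of_nonneg_left (by norm_num at hper ⊢; linarith [hper.2]) hq0
          have h9 : (q : ℝ) * (1 / 10 ^ 9) ≤ 25 * (1 / 10 ^ 9) :=
            mul_le_mul_of_nonneg_right hq25 (by norm_num)
          linarith
        have hperq2 : (q : ℝ) * (48855782394283 / 10 ^ 12) - 25 / 10 ^ 9 ≤ q * per th := by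
          have h8 : (q : ℝ) * (48855782394283 / 10 ^ 12 - 1 / 10 ^ 9) ≤ q * per th :=
            mul_le_mul_of_nonneg_left (by norm_num at hper ⊢; linarith [hper.1]) hq0
          have h9 : (q : ℝ) * (1 / 10 ^ 9) ≤ 25 * (1 / 10 ^ 9) :=
            mul_le_mul_of_nonneg_right hq25 (by norm_num)
          linarith
        have hQlo := b.q.lo q hq2
        have hQhi := b.q.hi q hq2
        have hcbr : (cb : ℝ) = (cell T x0 th r : ℝ) := by exact_mod_cast hcb
        have hir : ((r : ℝ) - i) = ((((r : ℤ) - i : ℤ)) : ℝ) := by push_cast; ring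
        have hclo : (cb : ℤ) + 8 * ((r : ℤ) - i) - qF q + qelo q ≤ cell T x0 th i := by
          have h10 : (cb : ℝ) + 8 * ((r : ℝ) - i) - qF q + qelo q < (cell T x0 th i : ℝ) + 1 := by
            rw [hcbr]
            norm_num at hperq1 hperq2 hQlo hQhi h2' ⊢
            linarith [h2'.1, h2'.2]
          have h11 : (cb : ℤ) + 8 * ((r : ℤ) - i) - qF q + qelo q < cell T x0 th i + 1 := by
            exact_mod_cast h10
          omega
        have hchi : cell T x0 th i ≤ (cb : ℤ) + 8 * ((r : ℤ) - i) - qF q + qehi q := by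
          have h10 : (cell T x0 th i : ℝ) < (cb : ℝ) + 8 * ((r : ℝ) - i) - qF q + qehi q + 1 := by
            rw [hcbr]
            norm_num at hperq1 hperq2 hQlo hQhi h2' ⊢
            linarith [h2'.1, h2'.2]
          have h11 : cell T x0 th i < (cb : ℤ) + 8 * ((r : ℤ) - i) - qF q + qehi q + 1 := by
            exact_mod_cast h10
          omega
        have hF1 : Ck T x0 i ≤ Ck T x0 r * x0 ^ (r - i) * (1 + ((q : ℝ) + 1) / 10 ^ 4) := by
          have h12 := p3 i r (by omega) (by omega) (by omega)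
          rw [r2, ← hqr] at h12
          exact h12
        have h6 := past_le b F (i := i) (d := d) (q := q) hi hd.1 (by omega)
          (c := cell T x0 th i) hq1 hq2 hF1 hclo hchi hin.1 hin.2 hdd
        have h7 := mul_le_mul_of_nonneg_left h6 (q1 d hd.1 hd.2)
        refine le_trans h7 (le_of_eq ?_)
        ring
      · rw [q2 d hd.1 hd.2 (by omega)]
        simp
    · have h1 : ∀ d, SS cb (chf T x0 z th r i d) = 0 := by
        intro d
        have h2 : SS cb (chf T x0 z th r i d) = SS cb (fun _ _ => 0) := by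
          apply SS_congr
          intro e _ s _ _
          unfold chf
          rw [if_neg (by omega)]
        rw [h2]
        unfold SS
        simp
      have h3 : ∑ d ∈ Finset.Icc (1 : ℕ) 55, pih T x0 i d * SS cb (chf T x0 z th r i d) = 0 := by
        apply Finset.sum_eq_zero
        intro d _
        rw [h1 d, mul_zero]
      rw [h3]
      exact hrhs0
  have hpast : ∑ i ∈ range r, ∑ d ∈ Finset.Icc (1 : ℕ) 55, pih T x0 i d * SS cb (chf T x0 z th r i d)
      ≤ ∑ q ∈ Finset.Icc (1 : ℕ) 25, if q ≤ j then (chiL.getD q 0 : ℝ) / 10 ^ 4 * KK T x0 th (j - q) else 0 := by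
    refine le_trans (Finset.sum_le_sum hpast1) ?_
    rw [Finset.sum_comm]
    apply Finset.sum_le_sum
    intro q hq
    rw [Finset.mem_Icc] at hq
    by_cases hqj : q ≤ j
    · rw [if_pos hqj]
      unfold KK
      rw [Finset.mul_sum, ← Finset.sum_filter]
      obtain ⟨u1, -, -, -, u5, -, -, -⟩ := Rall (j - q) (by omega)
      obtain ⟨v1, -, -, -, -, v6, -, -⟩ := Rall (j - q + 1) (by omega)
      apply Finset.sum_le_sum_of_subset_of_nonneg
      · intro i hi
        rw [Finset.mem_filter, Finset.mem_range] at hi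
        rw [Finset.mem_Ico]
        constructor
        · by_contra hcon
          have := u5 i (by omega)
          omega
        · by_contra hcon
          have := v6 i (by omega) (by omega)
          omega
      · intro i hi _
        rw [Finset.mem_Ico] at hi
        exact mul_nonneg (div_nonneg (Nat.cast_nonneg _) (by norm_num)) (hkk i (by omega))
    · rw [if_neg hqj]
      apply le_of_eq
      apply Finset.sum_eq_zero
      intro i hi
      rw [Finset.mem_range] at hi
      have := hcyc0 i (by omega)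
      rw [if_neg (by omega)]
  -- conclusion
  rw [SS_neg] at hL1
  rw [Finset.sum_add_distrib, Finset.sum_add_distrib] at hown
  have hnegD : - (loD cb : ℝ) / 10 ^ 34 = - ((loD cb : ℝ) / 10 ^ 34) := by ring
  rw [hnegD] at hL3
  linarith

end SA.H33
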