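import Pool.Agent.Helper33_SA.Close

/-! Module LO of squad SA, part 1: weights and list sums. -/

namespace SA.H33

open Finset

lemma list_sum_comm {α β : Type*} (L : List α) (s : Finset β) (f : α → β → ℝ) :
    (L.map (fun e => ∑ b ∈ s, f e b)).sum = ∑ b ∈ s, (L.map (fun e => f e b)).sum := by
  induction L with
  | nil => simp
  | cons a L ih => simp only [List.map_cons, List.sum_cons, ih, Finset.sum_add_distrib]

lemma list_sum_le {α : Type*} (L : List α) (f g : α → ℝ) (h : ∀ e ∈ L, f e ≤ g e) :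
    (L.map f).sum ≤ (L.map g).sum := by
  induction L with
  | nil => simp
  | cons a L ih =>
    simp only [List.map_cons, List.sum_cons]
    exact add_le_add (h a (by simp)) (ih (fun e he => h e (by simp [he])))

lemma list_sum_congr {α : Type*} (L : List α) (f g : α → ℝ) (h : ∀ e ∈ L, f e = g e) :
    (L.map f).sum = (L.map g).sum := by
  rw [List.map_congr_left h]

lemma list_sum_add {α : Type*} (L : List α) (f g : α → ℝ) :
    (L.map (fun e => f e + g e)).sum = (L.map f).sum + (L.map g).sum := by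
  induction L with
  | nil => simp
  | cons a L ih => simp only [List.map_cons, List.sum_cons, ih]; ring

lemma list_sum_mul {α : Type*} (L : List α) (c : ℝ) (f : α → ℝ) :
    (L.map (fun e => c * f e)).sum = c * (L.map f).sum := by
  induction L with
  | nil => simp
  | cons a L ih => simp only [List.map_cons, List.sum_cons, ih]; ring

lemma list_sum_cast {α : Type*} (L : List α) (f : α → ℤ) :
    (((L.map f).sum : ℤ) : ℝ) = (L.map (fun e => (f e : ℝ))).sum := by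
  induction L with
  | nil => simp
  | cons a L ih =>
    simp only [List.map_cons, List.sum_cons, Int.cast_add]
    rw [← ih]

/-- weight of the selected element e at the offset s -/
noncomputable def wt (e : ℕ × ℕ × ℕ × ℕ) (s : ℕ) : ℝ :=
  ∑ jj ∈ range e.2.2.1, if s ≤ e.1 ∧ e.1 - s ≤ e.2.1 + jj then (e.2.2.2 : ℝ) else 0

lemma wt_nonneg (e : ℕ × ℕ × ℕ × ℕ) (s : ℕ) : 0 ≤ wt e s := by
  unfold wt
  apply Finset.sum_nonneg
  intro jj _
  split_ifs
  · exact Nat.cast_nonneg _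
  · exact le_rfl

lemma wt_zero (e : ℕ × ℕ × ℕ × ℕ) (s : ℕ) (h : ¬ s ≤ e.1) : wt e s = 0 := by
  unfold wt
  apply Finset.sum_eq_zero
  intro jj _
  rw [if_neg (fun h' => h h'.1)]

lemma aS_cast (X : ℕ → ℤ) (cb s : ℕ) :
    (aS X cb s : ℝ) = ((selL cb).map (fun e => wt e s * X (e.1 - s))).sum := by
  unfold aS
  rw [list_sum_cast]
  apply list_sum_congr
  intro e _
  rw [list_sum_range]
  unfold wt
  rw [Finset.sum_mul]
  push_cast
  apply Finset.sum_congr rfl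
  intro jj _
  split_ifs
  · rfl
  · ring

noncomputable def SS (cb : ℕ) (φ : ℕ → ℕ → ℝ) : ℝ :=
  ∑ s ∈ range 16, ((selL cb).map (fun e => wt e s / 10 ^ 14 * φ e.1 s)).sum

lemma SS_mono (cb : ℕ) (φ ψ : ℕ → ℕ → ℝ)
    (h : ∀ e ∈ selL cb, ∀ s, s < 16 → s ≤ e.1 → φ e.1 s ≤ ψ e.1 s) : SS cb φ ≤ SS cb ψ := by
  unfold SS
  apply Finset.sum_le_sum
  intro s hs
  apply list_sum_le
  intro e he
  by_cases hse : s ≤ e.1
  · exact mul_le_mul_of_nonneg_left (h e he s (Finset.mem_range.1 hs) hse)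
      (div_nonneg (wt_nonneg e s) (by norm_num))
  · rw [wt_zero e s hse]; simp

lemma SS_congr (cb : ℕ) (φ ψ : ℕ → ℕ → ℝ)
    (h : ∀ e ∈ selL cb, ∀ s, s < 16 → s ≤ e.1 → φ e.1 s = ψ e.1 s) : SS cb φ = SS cb ψ :=
  le_antisymm (SS_mono cb φ ψ (fun e he s hs hse => (h e he s hs hse).le))
    (SS_mono cb ψ φ (fun e he s hs hse => (h e he s hs hse).ge))

lemma SS_add (cb : ℕ) (φ ψ : ℕ → ℕ → ℝ) :
    SS cb (fun a s => φ a s + ψ a s) = SS cb φ + SS cb ψ := by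
  unfold SS
  rw [← Finset.sum_add_distrib]
  apply Finset.sum_congr rfl
  intro s _
  rw [← list_sum_add]
  apply list_sum_congr
  intro e _
  ring

lemma SS_mul (cb : ℕ) (c : ℝ) (φ : ℕ → ℕ → ℝ) :
    SS cb (fun a s => c * φ a s) = c * SS cb φ := by
  unfold SS
  rw [Finset.mul_sum]
  apply Finset.sum_congr rfl
  intro s _
  rw [← list_sum_mul]
  apply list_sum_congr
  intro e _
  ring

lemma SS_neg (cb : ℕ) (φ : ℕ → ℕ → ℝ) :
    SS cb (fun a s => - φ a s) = - SS cb φ := by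
  have := SS_mul cb (-1) φ
  simp only [neg_mul, one_mul] at this
  exact this

lemma SS_sum {β : Type*} (cb : ℕ) (B : Finset β) (φ : β → ℕ → ℕ → ℝ) :
    SS cb (fun a s => ∑ b ∈ B, φ b a s) = ∑ b ∈ B, SS cb (φ b) := by
  unfold SS
  rw [Finset.sum_comm]
  apply Finset.sum_congr rfl
  intro s _
  rw [← list_sum_comm]
  apply list_sum_congr
  intro e _
  rw [Finset.mul_sum]

/-- the selected elements are within the range -/
def selok (cb : ℕ) : Prop := ∀ e ∈ selL cb, e.1 ≤ 15 ∧ e.2.1 + e.2.2.1 ≤ e.1 + 1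

lemma inner_rearr (f : ℕ → ℝ) (a i : ℕ) (ha : a ≤ 15) (hi : i ≤ a) :
    ∑ t ∈ range (i + 1), f (a - t)
      = ∑ s ∈ range 16, if s ≤ a ∧ a - s ≤ i then f s else 0 := by
  rw [← Finset.sum_filter]
  apply Finset.sum_nbij' (fun t => a - t) (fun s => a - s)
  · intro t ht
    rw [Finset.mem_range] at ht
    rw [Finset.mem_filter, Finset.mem_range]
    omega
  · intro s hs
    rw [Finset.mem_filter, Finset.mem_range] at hs
    rw [Finset.mem_range]
    omega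
  · intro t ht
    rw [Finset.mem_range] at ht
    omega
  · intro s hs
    rw [Finset.mem_filter, Finset.mem_range] at hs
    omega
  · intro t _
    rfl

lemma SS_rearr (cb : ℕ) (hsel : selok cb) (φ : ℕ → ℕ → ℝ) :
    ((selL cb).map (fun e => (e.2.2.2 : ℝ) / 10 ^ 14 * ∑ i ∈ Finset.Ico e.2.1 (e.2.1 + e.2.2.1),
      ∑ t ∈ range (i + 1), φ e.1 (e.1 - t))).sum = SS cb φ := by
  unfold SS
  rw [← list_sum_comm]
  apply list_sum_congr
  intro e he
  obtain ⟨h1, h2⟩ := hsel e he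
  rw [Finset.sum_Ico_eq_sum_range]
  have h3 : e.2.1 + e.2.2.1 - e.2.1 = e.2.2.1 := by omega
  rw [h3]
  have h4 : ∑ jj ∈ range e.2.2.1, ∑ t ∈ range (e.2.1 + jj + 1), φ e.1 (e.1 - t)
      = ∑ jj ∈ range e.2.2.1, ∑ s ∈ range 16,
        if s ≤ e.1 ∧ e.1 - s ≤ e.2.1 + jj then φ e.1 s else 0 := by
    apply Finset.sum_congr rfl
    intro jj hjj
    rw [Finset.mem_range] at hjj
    exact inner_rearr (φ e.1) e.1 (e.2.1 + jj) h1 (by omega)
  rw [h4, Finset.sum_comm, Finset.mul_sum]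
  apply Finset.sum_congr rfl
  intro s _
  unfold wt
  rw [Finset.mul_sum, Finset.sum_div, Finset.sum_mul]
  apply Finset.sum_congr rfl
  intro jj _
  split_ifs
  · ring
  · ring

/-- bounds for powers of x0 -/
def XB (x0 : ℝ) : Prop := ∀ t, t < 26 → (X0lo t : ℝ) / 10 ^ 10 ≤ x0 ^ t ∧ x0 ^ t ≤ (X0hi t : ℝ) / 10 ^ 10

lemma SS_le (x0 : ℝ) (hx0 : 0 < x0) (hX : XB x0) (cb : ℕ) (hsel : selok cb) (φ : ℕ → ℕ → ℝ)
    (x : ℕ → ℤ)
    (h : ∀ e ∈ selL cb, ∀ s, s < 16 → s ≤ e.1 → ∃ G : ℝ, 1 ≤ G ∧ G ≤ 10001 / 10 ^ 4 ∧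
      φ e.1 s ≤ G * x0 ^ (e.1 - s) * ((x s : ℝ) / 10 ^ 10)) :
    SS cb φ ≤ (∑ s ∈ range 16, (aXp cb s (x s) : ℝ)) / 10 ^ 34 := by
  unfold SS
  rw [Finset.sum_div]
  apply Finset.sum_le_sum
  intro s hs
  rw [Finset.mem_range] at hs
  by_cases hx : 0 ≤ x s
  · have hxr : (0 : ℝ) ≤ x s := by exact_mod_cast hx
    have h1 : ((selL cb).map (fun e => wt e s / 10 ^ 14 * φ e.1 s)).sum
        ≤ ((selL cb).map (fun e => ((x s : ℝ) * 10001 / 10 ^ 4 / 10 ^ 34) * (wt e s * X0hi (e.1 - s)))).sum := by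
      apply list_sum_le
      intro e he
      by_cases hse : s ≤ e.1
      · obtain ⟨G, g1, g2, g3⟩ := h e he s hs hse
        obtain ⟨-, x2⟩ := hX (e.1 - s) (by have := (hsel e he).1; omega)
        have hpow : 0 < x0 ^ (e.1 - s) := pow_pos hx0 _
        have h2 : φ e.1 s ≤ 10001 / 10 ^ 4 * ((X0hi (e.1 - s) : ℝ) / 10 ^ 10) * ((x s : ℝ) / 10 ^ 10) := by
          refine le_trans g3 ?_
          apply mul_le_mul_of_nonneg_right _ (by positivity)
          exact mul_le_mul g2 x2 hpow.le (by norm_num)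
        calc wt e s / 10 ^ 14 * φ e.1 s
            ≤ wt e s / 10 ^ 14 * (10001 / 10 ^ 4 * ((X0hi (e.1 - s) : ℝ) / 10 ^ 10) * ((x s : ℝ) / 10 ^ 10)) :=
              mul_le_mul_of_nonneg_left h2 (div_nonneg (wt_nonneg e s) (by norm_num))
          _ = _ := by ring
      · rw [wt_zero e s hse]; simp
    refine le_trans h1 ?_
    rw [list_sum_mul, ← aS_cast]
    unfold aXp
    rw [if_pos hx]
    have h3 := le_cdiv (aS X0hi cb s * x s * 10001) (10 ^ 4) (by norm_num)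
    calc ((x s : ℝ) * 10001 / 10 ^ 4 / 10 ^ 34) * (aS X0hi cb s : ℝ)
        = (((aS X0hi cb s * x s * 10001 : ℤ) : ℝ) / ((10 ^ 4 : ℤ) : ℝ)) / 10 ^ 34 := by
          push_cast; ring
      _ ≤ _ := div_le_div_of_nonneg_right h3 (by norm_num)
  · have hxr : (x s : ℝ) ≤ 0 := by
      have : x s ≤ 0 := by omega
      exact_mod_cast this
    have h1 : ((selL cb).map (fun e => wt e s / 10 ^ 14 * φ e.1 s)).sum
        ≤ ((selL cb).map (fun e => ((x s : ℝ) / 10 ^ 34) * (wt e s * X0lo (e.1 - s)))).sum := by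
      apply list_sum_le
      intro e he
      by_cases hse : s ≤ e.1
      · obtain ⟨G, g1, g2, g3⟩ := h e he s hs hse
        obtain ⟨x1, -⟩ := hX (e.1 - s) (by have := (hsel e he).1; omega)
        have hpow : 0 < x0 ^ (e.1 - s) := pow_pos hx0 _
        have h2 : φ e.1 s ≤ ((X0lo (e.1 - s) : ℝ) / 10 ^ 10) * ((x s : ℝ) / 10 ^ 10) := by
          refine le_trans g3 ?_
          apply mul_le_mul_of_nonpos_right _ (div_nonpos_of_nonpos_of_nonneg hxr (by norm_num))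
          calc (X0lo (e.1 - s) : ℝ) / 10 ^ 10 ≤ x0 ^ (e.1 - s) := x1
            _ = 1 * x0 ^ (e.1 - s) := (one_mul _).symm
            _ ≤ G * x0 ^ (e.1 - s) := mul_le_mul_of_nonneg_right g1 hpow.le
        calc wt e s / 10 ^ 14 * φ e.1 s
            ≤ wt e s / 10 ^ 14 * (((X0lo (e.1 - s) : ℝ) / 10 ^ 10) * ((x s : ℝ) / 10 ^ 10)) :=
              mul_le_mul_of_nonneg_left h2 (div_nonneg (wt_nonneg e s) (by norm_num))
          _ = _ := by ring
      · rw [wt_zero e s hse]; simp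
    refine le_trans h1 ?_
    rw [list_sum_mul, ← aS_cast]
    unfold aXp
    rw [if_neg hx]
    apply le_of_eq
    push_cast
    ring

/-- the part of 1 - 1.056 cos -/
lemma SS_D (x0 : ℝ) (hx0 : 0 < x0) (hX : XB x0) (cb : ℕ) (hsel : selok cb) (φ : ℕ → ℕ → ℝ)
    (h : ∀ e ∈ selL cb, ∀ s, s < 16 → s ≤ e.1 → ∃ G : ℝ, 1 ≤ G ∧ G ≤ 10001 / 10 ^ 4 ∧
      φ e.1 s = G * x0 ^ (e.1 - s) * ((W0N cb s : ℝ) / 10 ^ 10 + 7.5 / 10 ^ 4)) :
    SS cb φ ≤ - (loD cb : ℝ) / 10 ^ 34 := by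
  have hcast : (loD cb : ℝ) = ∑ s ∈ range 16, (-(aX cb s (W0N cb s) : ℝ)
      - (aS X0hi cb s : ℝ) * (8 * 10 ^ 6 + (cdiv |W0N cb s| (10 ^ 4) : ℤ) + 1)) := by
    unfold loD
    rw [list_sum_range, Int.cast_sum]
    apply Finset.sum_congr rfl
    intro s _
    rw [Int.cast_sub, Int.cast_neg, Int.cast_mul, Int.cast_add, Int.cast_add, Int.cast_one]
    norm_num
  rw [hcast, ← Finset.sum_neg_distrib, Finset.sum_div]
  unfold SS
  apply Finset.sum_le_sum
  intro s hs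
  rw [Finset.mem_range] at hs
  set w : ℤ := W0N cb s with hw
  have hcd := le_cdiv |w| (10 ^ 4) (by norm_num)
  rw [show (((10 ^ 4 : ℤ)) : ℝ) = 10 ^ 4 by norm_num, Int.cast_abs] at hcd
  -- choice of the table
  have key : ∀ Y : ℕ → ℤ, (∀ t, t < 26 → x0 ^ t * (w : ℝ) ≤ (Y t : ℝ) / 10 ^ 10 * (w : ℝ)) →
      ((selL cb).map (fun e => wt e s / 10 ^ 14 * φ e.1 s)).sum
        ≤ ((aS Y cb s : ℝ) * w + (aS X0hi cb s : ℝ) * (8 * 10 ^ 6 + (cdiv |w| (10 ^ 4) : ℤ) + 1)) / 10 ^ 34 := by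
    intro Y hY
    have h1 : ((selL cb).map (fun e => wt e s / 10 ^ 14 * φ e.1 s)).sum
        ≤ ((selL cb).map (fun e => ((w : ℝ) / 10 ^ 34) * (wt e s * Y (e.1 - s))
          + (8 * 10 ^ 6 + (cdiv |w| (10 ^ 4) : ℤ) + 1) / 10 ^ 34 * (wt e s * X0hi (e.1 - s)))).sum := by
      apply list_sum_le
      intro e he
      by_cases hse : s ≤ e.1
      · obtain ⟨G, g1, g2, g3⟩ := h e he s hs hse
        have ht : e.1 - s < 26 := by have := (hsel e he).1; omega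
        obtain ⟨-, x2⟩ := hX (e.1 - s) ht
        have y1 := hY (e.1 - s) ht
        have hpow : 0 < x0 ^ (e.1 - s) := pow_pos hx0 _
        have h2 : φ e.1 s ≤ (Y (e.1 - s) : ℝ) / 10 ^ 10 * ((w : ℝ) / 10 ^ 10)
            + (X0hi (e.1 - s) : ℝ) / 10 ^ 10 * ((8 * 10 ^ 6 + (cdiv |w| (10 ^ 4) : ℤ) + 1) / 10 ^ 10) := by
          rw [g3]
          have h3 : (G - 1) * (w : ℝ) ≤ |(w : ℝ)| / 10 ^ 4 := by
            have : (G - 1) * (w : ℝ) ≤ (G - 1) * |(w : ℝ)| :=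
              mul_le_mul_of_nonneg_left (le_abs_self _) (by linarith)
            have h4 : (G - 1) * |(w : ℝ)| ≤ (1 / 10 ^ 4) * |(w : ℝ)| :=
              mul_le_mul_of_nonneg_right (by norm_num at g2 ⊢; linarith) (abs_nonneg _)
            linarith
          have h5 : G * ((w : ℝ) / 10 ^ 10 + 7.5 / 10 ^ 4)
              ≤ (w : ℝ) / 10 ^ 10 + (8 * 10 ^ 6 + (cdiv |w| (10 ^ 4) : ℤ) + 1) / 10 ^ 10 := by
            have h6 : G * ((w : ℝ) / 10 ^ 10 + 7.5 / 10 ^ 4)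
                = (w : ℝ) / 10 ^ 10 + ((G - 1) * (w : ℝ)) / 10 ^ 10 + G * (7.5 / 10 ^ 4) := by ring
            rw [h6]
            have h7 : G * (7.5 / 10 ^ 4 : ℝ) ≤ 10001 / 10 ^ 4 * (7.5 / 10 ^ 4) :=
              mul_le_mul_of_nonneg_right g2 (by norm_num)
            have h8 : ((G - 1) * (w : ℝ)) / 10 ^ 10 ≤ (cdiv |w| (10 ^ 4) : ℤ) / 10 ^ 10 :=
              div_le_div_of_nonneg_right (le_trans h3 hcd) (by norm_num)
            have h9 : (10001 : ℝ) / 10 ^ 4 * (7.5 / 10 ^ 4) ≤ (8 * 10 ^ 6 + 1) / 10 ^ 10 := by norm_num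
            have h10 : ((8 : ℝ) * 10 ^ 6 + (cdiv |w| (10 ^ 4) : ℤ) + 1) / 10 ^ 10
                = (8 * 10 ^ 6 + 1) / 10 ^ 10 + (cdiv |w| (10 ^ 4) : ℤ) / 10 ^ 10 := by ring
            rw [h10]
            linarith
          have hcd0 : (0 : ℝ) ≤ (cdiv |w| (10 ^ 4) : ℤ) :=
            le_trans (div_nonneg (abs_nonneg _) (by norm_num)) hcd
          have hcd1 : (0 : ℝ) ≤ 8 * 10 ^ 6 + (cdiv |w| (10 ^ 4) : ℤ) + 1 := by
            have : (0 : ℝ) ≤ 8 * 10 ^ 6 := by norm_num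
            linarith
          calc G * x0 ^ (e.1 - s) * ((w : ℝ) / 10 ^ 10 + 7.5 / 10 ^ 4)
              = x0 ^ (e.1 - s) * (G * ((w : ℝ) / 10 ^ 10 + 7.5 / 10 ^ 4)) := by ring
            _ ≤ x0 ^ (e.1 - s) * ((w : ℝ) / 10 ^ 10 + (8 * 10 ^ 6 + (cdiv |w| (10 ^ 4) : ℤ) + 1) / 10 ^ 10) :=
                mul_le_mul_of_nonneg_left h5 hpow.le
            _ = (x0 ^ (e.1 - s) * w) / 10 ^ 10
                + x0 ^ (e.1 - s) * ((8 * 10 ^ 6 + (cdiv |w| (10 ^ 4) : ℤ) + 1) / 10 ^ 10) := by ring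
            _ ≤ ((Y (e.1 - s) : ℝ) / 10 ^ 10 * w) / 10 ^ 10
                + (X0hi (e.1 - s) : ℝ) / 10 ^ 10 * ((8 * 10 ^ 6 + (cdiv |w| (10 ^ 4) : ℤ) + 1) / 10 ^ 10) := by
                apply add_le_add
                · exact div_le_div_of_nonneg_right y1 (by norm_num)
                · exact mul_le_mul_of_nonneg_right x2 (div_nonneg hcd1 (by norm_num))
            _ = _ := by ring
        calc wt e s / 10 ^ 14 * φ e.1 s
            ≤ wt e s / 10 ^ 14 * ((Y (e.1 - s) : ℝ) / 10 ^ 10 * ((w : ℝ) / 10 ^ 10)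
              + (X0hi (e.1 - s) : ℝ) / 10 ^ 10 * ((8 * 10 ^ 6 + (cdiv |w| (10 ^ 4) : ℤ) + 1) / 10 ^ 10)) :=
              mul_le_mul_of_nonneg_left h2 (div_nonneg (wt_nonneg e s) (by norm_num))
          _ = _ := by ring
      · rw [wt_zero e s hse]; simp
    refine le_trans h1 (le_of_eq ?_)
    rw [list_sum_add, list_sum_mul, list_sum_mul, ← aS_cast, ← aS_cast]
    ring
  have hgoal : ∀ Y : ℕ → ℤ, aX cb s w = aS Y cb s * w →
      ((aS Y cb s : ℝ) * w + (aS X0hi cb s : ℝ) * (8 * 10 ^ 6 + (cdiv |w| (10 ^ 4) : ℤ) + 1)) / 10 ^ 34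
      = -(-(aX cb s w : ℝ) - (aS X0hi cb s : ℝ) * (8 * 10 ^ 6 + (cdiv |w| (10 ^ 4) : ℤ) + 1)) / 10 ^ 34 := by
    intro Y hY
    rw [hY]; push_cast; ring
  by_cases h0 : 0 ≤ w
  · have h0r : (0 : ℝ) ≤ w := by exact_mod_cast h0
    have h1 := key X0hi (fun t ht => mul_le_mul_of_nonneg_right (hX t ht).2 h0r)
    rw [hgoal X0hi (by unfold aX; rw [if_pos h0])] at h1
    exact h1
  · have h0r : (w : ℝ) ≤ 0 := by
      have : w ≤ 0 := by omega
      exact_mod_cast this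
    have h1 := key X0lo (fun t ht => mul_le_mul_of_nonpos_right (hX t ht).1 h0r)
    rw [hgoal X0lo (by unfold aX; rw [if_neg h0])] at h1
    exact h1

end SA.H33
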